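import Pool.Agent.H58.DM.Core

set_option autoImplicit false
set_option linter.unusedVariables false

open Finset Function
open Pool.Agent.Results.MP_c7a479_co.VarSets (IsPermCube IsVarSet HasVarSet)

namespace Pool.Agent.H58.DM

section
variable {R : Type} [CommRing R] {x y : R → R} {c : R}

lemma tri_lt (H : Pair R x y) (hc : ∀ u v : R, c * u = c * v → u = v)
    (hd : ∀ u v : R, (c - 1) * u = (c - 1) * v → u = v) :
    ∀ i k l : Fin 5, i < k → k < l → Tri (cube x y i) (cube x y k) (cube x y l) := by
  intro i k l
  fin_cases i <;> fin_cases k <;> fin_cases l <;> intro h1 h2 <;>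
    first
    | exact absurd h1 (by decide)
    | exact absurd h2 (by decide)
    | exact r012 H hc hd
    | exact r013 H hc hd
    | exact r014 H hc hd
    | exact r023 H hc hd
    | exact r123 H hc hd
    | exact r234 H hc hd
    | exact r024 H hc hd
    | exact r034 H hc hd
    | exact r124 H hc hd
    | exact r134 H hc hd

lemma tri_all (H : Pair R x y) (hc : ∀ u v : R, c * u = c * v → u = v)
    (hd : ∀ u v : R, (c - 1) * u = (c - 1) * v → u = v) (i k l : Fin 5) (h1 : i ≠ k) (h2 : i ≠ l)
    (h3 : k ≠ l) : Tri (cube x y i) (cube x y k) (cube x y l) := by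
  have T := tri_lt H hc hd
  rcases lt_or_gt_of_ne h1 with a | a <;> rcases lt_or_gt_of_ne h2 with b | b <;>
    rcases lt_or_gt_of_ne h3 with d | d
  · exact T i k l a d
  · exact (T i l k b d).perm2
  · exact absurd (a.trans d) (not_lt.2 b.le)
  · exact ((T l i k b a).perm1).perm2
  · exact ((T k i l a b).perm1)
  · exact absurd (d.trans a) (not_lt.2 b.le)
  · exact ((T k l i d b).perm2).perm1
  · exact (((T l k i d a).perm1).perm2).perm1

lemma mixed (H : Pair R x y) (hc : ∀ u v : R, c * u = c * v → u = v)
    (hd : ∀ u v : R, (c - 1) * u = (c - 1) * v → u = v) (i : Fin 5) (s : Fin 3) (p q : R × R × R)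
    (h1 : ∀ u, u ≠ s → coord c x y u p = coord c x y u q) (h2 : cube x y i p = cube x y i q) :
    p = q := by
  fin_cases s
  · have a := h1 1 (by decide)
    have b := h1 2 (by decide)
    fin_cases i
    · exact x12_0 H hc hd p q a b h2
    · exact x12_1 H hc hd p q a b h2
    · exact x12_2 H hc hd p q a b h2
    · exact x12_3 H hc hd p q a b h2
    · exact x12_4 H hc hd p q a b h2
  · have a := h1 0 (by decide)
    have b := h1 2 (by decide)
    fin_cases i
    · exact x02_0 H hc hd p q a b h2
    · exact x02_1 H hc hd p q a b h2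
    · exact x02_2 H hc hd p q a b h2
    · exact x02_3 H hc hd p q a b h2
    · exact x02_4 H hc hd p q a b h2
  · have a := h1 0 (by decide)
    have b := h1 1 (by decide)
    fin_cases i
    · exact x01_0 H hc hd p q a b h2
    · exact x01_1 H hc hd p q a b h2
    · exact x01_2 H hc hd p q a b h2
    · exact x01_3 H hc hd p q a b h2
    · exact x01_4 H hc hd p q a b h2

/-- **Five cubes of dimension three from a difference matrix with four rows.** -/
theorem hasVarSet [Fintype R] (H : Pair R x y)
    (hc : ∀ u v : R, c * u = c * v → u = v)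
    (hd : ∀ u v : R, (c - 1) * u = (c - 1) * v → u = v) : HasVarSet 3 (Fintype.card R) 5 := by
  classical
  have hΦ : Bijective (fun (p : R × R × R) (i : Fin 3) => coord c x y i p) := by
    rw [Fintype.bijective_iff_injective_and_card]
    constructor
    · intro p q h
      exact x012 H hc hd p q (congrFun h 0) (congrFun h 1) (congrFun h 2)
    · rw [Fintype.card_prod, Fintype.card_prod, Fintype.card_fun, Fintype.card_fin]
      ring
  let e : R × R × R ≃ (Fin 3 → R) := Equiv.ofBijective _ hΦ
  have he : ∀ (v : Fin 3 → R) (i : Fin 3), coord c x y i (e.symm v) = v i := fun v i =>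
    congrFun (e.apply_symm_apply v) i
  have hV : IsVarSet (fun (i : Fin 5) (v : Fin 3 → R) => cube x y i (e.symm v)) := by
    constructor
    · intro i v s
      rw [← Finite.injective_iff_bijective]
      intro t t' h
      have h1 : e.symm (update v s t) = e.symm (update v s t') := by
        refine mixed H hc hd i s _ _ (fun u hu => ?_) h
        rw [he, he, update_of_ne hu, update_of_ne hu]
      have h2 := congrFun (e.symm.injective h1) s
      rwa [update_self, update_self] at h2
    · intro s hs
      rw [← Finite.injective_iff_bijective]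
      intro v v' h
      apply e.symm.injective
      exact tri_all H hc hd (s 0) (s 1) (s 2) (fun h => absurd (hs h) (by decide))
        (fun h => absurd (hs h) (by decide)) (fun h => absurd (hs h) (by decide)) _ _
        (congrFun h 0) (congrFun h 1) (congrFun h 2)
  exact ⟨_, hV.transfer (Fintype.equivFin R)⟩

end

lemma Pair.map {G K : Type} [AddCommGroup G] [AddCommGroup K] {x y : G → G} (H : Pair G x y)
    (e : G ≃+ K) : Pair K (fun k => e (x (e.symm k))) (fun k => e (y (e.symm k))) := by
  constructor
  · exact e.injective.comp (H.ix.comp e.symm.injective)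
  · exact e.injective.comp (H.iy.comp e.symm.injective)
  · have h : (fun j => e (x (e.symm j)) - j) = e ∘ (fun j => x j - j) ∘ e.symm := by
      funext j; simp
    rw [h]
    exact e.injective.comp (H.ixj.comp e.symm.injective)
  · have h : (fun j => e (y (e.symm j)) - j) = e ∘ (fun j => y j - j) ∘ e.symm := by
      funext j; simp
    rw [h]
    exact e.injective.comp (H.iyj.comp e.symm.injective)
  · have h : (fun j => e (x (e.symm j)) + e (y (e.symm j)) - j) =
        e ∘ (fun j => x j + y j - j) ∘ e.symm := by
      funext j; simp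
    rw [h]
    exact e.injective.comp (H.ixy.comp e.symm.injective)

/-- odd cyclic groups -/
theorem hasVarSet_zmod {n : ℕ} [NeZero n] (hn : Odd n) {x y : ZMod n → ZMod n}
    (H : Pair (ZMod n) x y) : HasVarSet 3 n 5 := by
  have h := hasVarSet (c := (-1 : ZMod n)) H (fun u v h => by
    have := congrArg (fun t => -t) h
    simpa using this) (fun u v h => by
    obtain ⟨m, hm⟩ := hn
    have h2 : (((m + 1 : ℕ)) : ZMod n) * 2 = 1 := by
      have : (((m + 1) * 2 : ℕ) : ZMod n) = ((n + 1 : ℕ) : ZMod n) := by
        congr 1; omega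
      push_cast at this ⊢
      rw [this]
      simp
    have h3 : (((m + 1 : ℕ)) : ZMod n) * ((-1 - 1) * u) = (((m + 1 : ℕ)) : ZMod n) * ((-1 - 1) * v) := by
      rw [h]
    linear_combination (-1 : ZMod n) * h3 - (u - v) * h2)
  rwa [ZMod.card] at h

/-- products of a field and the field with three elements -/
theorem hasVarSet_field {K : Type} [Field K] [Fintype K] (hK : 3 ≤ Fintype.card K)
    {x y : K × ZMod 3 → K × ZMod 3} (H : Pair (K × ZMod 3) x y) :
    HasVarSet 3 (Fintype.card K * 3) 5 := by
  classical
  obtain ⟨w, hw⟩ : ∃ w : K, w ∉ ({0, 1} : Finset K) := by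
    by_contra hcon
    push Not at hcon
    have h1 : (univ : Finset K) ⊆ {0, 1} := fun a _ => hcon a
    have h2 := card_le_card h1
    have h3 : ({0, 1} : Finset K).card ≤ 2 := card_le_two
    rw [card_univ] at h2
    omega
  simp only [mem_insert, mem_singleton, not_or] at hw
  have h3 : (-1 : ZMod 3) ≠ 0 := by decide
  have h4 : (-1 - 1 : ZMod 3) ≠ 0 := by decide
  have : Fact (Nat.Prime 3) := ⟨Nat.prime_three⟩
  have h := hasVarSet (c := ((w, -1) : K × ZMod 3)) H (fun u v h => by
    have h5 := congrArg Prod.fst h
    have h6 := congrArg Prod.snd h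
    simp only [Prod.fst_mul, Prod.snd_mul] at h5 h6
    exact Prod.ext (mul_left_cancel₀ hw.1 h5) (mul_left_cancel₀ h3 h6)) (fun u v h => by
    have h5 := congrArg Prod.fst h
    have h6 := congrArg Prod.snd h
    simp only [Prod.fst_mul, Prod.snd_mul, Prod.fst_sub, Prod.snd_sub, Prod.fst_one,
      Prod.snd_one] at h5 h6
    exact Prod.ext (mul_left_cancel₀ (sub_ne_zero.2 hw.2) h5) (mul_left_cancel₀ h4 h6))
  rwa [Fintype.card_prod, ZMod.card] at h

/-! ### tables -/

/-- the binary number with the digits one at the places in the list -/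
def mask (L : List ℕ) : ℕ := L.foldl (fun m v => m ||| (1 <<< v)) 0

lemma testBit_foldl (L : List ℕ) (m i : ℕ) :
    (L.foldl (fun m v => m ||| (1 <<< v)) m).testBit i = (m.testBit i || decide (i ∈ L)) := by
  induction L generalizing m with
  | nil => simp
  | cons a l ih =>
    rw [List.foldl_cons, ih, Nat.testBit_or, Nat.one_shiftLeft, Nat.testBit_two_pow]
    by_cases h1 : a = i
    · subst h1; simp
    · have h2 : ¬ i = a := fun h => h1 h.symm
      simp [h1, h2]

/-- the list is a permutation of `0, …, n - 1` -/
def okL (n : ℕ) (L : List ℕ) : Bool := L.length == n && mask L == 2 ^ n - 1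

lemma perm_of_okL {n : ℕ} {L : List ℕ} (h : okL n L = true) : (List.range n).Perm L := by
  simp only [okL, Bool.and_eq_true, beq_iff_eq] at h
  obtain ⟨h1, h2⟩ := h
  have h3 : ∀ i ∈ List.range n, i ∈ L := by
    intro i hi
    have h4 := testBit_foldl L 0 i
    change (mask L).testBit i = _ at h4
    rw [h2, Nat.testBit_two_pow_sub_one, Nat.zero_testBit, Bool.false_or] at h4
    have h5 : decide (i < n) = true := decide_eq_true (List.mem_range.1 hi)
    rw [h5] at h4
    exact of_decide_eq_true h4.symm
  have h6 : (List.range n).Subperm L := List.nodup_range.subperm h3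
  exact h6.perm_of_length_le (by rw [List.length_range, h1])

lemma inj_of_okL {n : ℕ} [NeZero n] {L : List ℕ} (h : okL n L = true) {g : ZMod n → ZMod n}
    (hg : ∀ j, g j = (L.getD j.val 0 : ZMod n)) : Injective g := by
  have hp := perm_of_okL h
  have hlen : L.length = n := by rw [← hp.length_eq, List.length_range]
  have hnd : L.Nodup := hp.nodup_iff.1 List.nodup_range
  have hlt : ∀ a ∈ L, a < n := fun a ha => List.mem_range.1 (hp.mem_iff.2 ha)
  intro j k hjk
  rw [hg, hg, ZMod.natCast_eq_natCast_iff'] at hjk
  have hj : j.val < L.length := by rw [hlen]; exact ZMod.val_lt j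
  have hk : k.val < L.length := by rw [hlen]; exact ZMod.val_lt k
  rw [List.getD_eq_getElem _ _ hj, List.getD_eq_getElem _ _ hk,
    Nat.mod_eq_of_lt (hlt _ (List.getElem_mem hj)),
    Nat.mod_eq_of_lt (hlt _ (List.getElem_mem hk))] at hjk
  exact ZMod.val_injective n ((hnd.getElem_inj_iff).1 hjk)

/-- the list of the `(L j - j) mod n` -/
def shift (n : ℕ) (L : List ℕ) : List ℕ :=
  List.zipWith (fun j v => (v + (n - j)) % n) (List.range n) L

lemma getD_shift {n : ℕ} {L : List ℕ} (hL : L.length = n) {j : ℕ} (hj : j < n) :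
    (shift n L).getD j 0 = (L.getD j 0 + (n - j)) % n := by
  have h1 : j < (shift n L).length := by
    rw [shift, List.length_zipWith, List.length_range, hL, min_self]; exact hj
  rw [List.getD_eq_getElem _ _ h1, List.getD_eq_getElem _ _ (by rw [hL]; exact hj)]
  simp only [shift, List.getElem_zipWith, List.getElem_range]

/-- the check for a pair of tables -/
def ok (n : ℕ) (xs ys : List ℕ) : Bool :=
  okL n xs && (okL n ys && (okL n (shift n xs) && (okL n (shift n ys) &&
      okL n (shift n (List.zipWith (· + ·) xs ys)))))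

theorem hasVarSet_table {n : ℕ} (hn : Odd n) (xs ys : List ℕ) (h : ok n xs ys = true) :
    HasVarSet 3 n 5 := by
  have : NeZero n := ⟨by rintro rfl; exact absurd hn (by decide)⟩
  simp only [ok, Bool.and_eq_true] at h
  obtain ⟨h1, h2, h3, h4, h5⟩ := h
  have l1 : xs.length = n := by rw [← (perm_of_okL h1).length_eq, List.length_range]
  have l2 : ys.length = n := by rw [← (perm_of_okL h2).length_eq, List.length_range]
  have l3 : (List.zipWith (· + ·) xs ys).length = n := by
    rw [List.length_zipWith, l1, l2, min_self]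
  have hj : ∀ j : ZMod n, ((n - j.val : ℕ) : ZMod n) = -j := by
    intro j
    rw [Nat.cast_sub (ZMod.val_lt j).le, ZMod.natCast_self, ZMod.natCast_zmod_val, zero_sub]
  have hs : ∀ (L : List ℕ), L.length = n → ∀ j : ZMod n,
      (((shift n L).getD j.val 0 : ℕ) : ZMod n) = ((L.getD j.val 0 : ℕ) : ZMod n) - j := by
    intro L hL j
    rw [getD_shift hL (ZMod.val_lt j), ZMod.natCast_mod, Nat.cast_add, hj, sub_eq_add_neg]
  refine hasVarSet_zmod hn (x := fun j => (xs.getD j.val 0 : ℕ)) (y := fun j => (ys.getD j.val 0 : ℕ))
    ⟨inj_of_okL h1 fun j => rfl, inj_of_okL h2 fun j => rfl,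
      inj_of_okL h3 fun j => (hs xs l1 j).symm, inj_of_okL h4 fun j => (hs ys l2 j).symm,
      inj_of_okL h5 fun j => ?_⟩
  have a1 : j.val < xs.length := by rw [l1]; exact ZMod.val_lt j
  have a2 : j.val < ys.length := by rw [l2]; exact ZMod.val_lt j
  have a3 : j.val < (List.zipWith (· + ·) xs ys).length := by rw [l3]; exact ZMod.val_lt j
  rw [hs _ l3]
  congr 1
  rw [List.getD_eq_getElem _ _ a1, List.getD_eq_getElem _ _ a2, List.getD_eq_getElem _ _ a3]
  simp only [List.getElem_zipWith, Nat.cast_add]

end Pool.Agent.H58.DM
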