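import Pool.Agent.H58.DM.Core6

set_option autoImplicit false
set_option linter.unusedVariables false

open Finset Function
open Pool.Agent.Results.MP_c7a479_co.VarSets (IsPermCube IsVarSet HasVarSet)

namespace Pool.Agent.H58.DM.Six

open Pool.Agent.H58.DM (Tri Tri.perm1 Tri.perm2 okL perm_of_okL inj_of_okL mask)

section
variable {R : Type} [CommRing R] {p q r g : R → R} {c : R}

lemma tri_lt (H : Sys R p q r g) (hc : ∀ u v : R, c * u = c * v → u = v)
    (hd : ∀ u v : R, (c - 1) * u = (c - 1) * v → u = v) :
    ∀ i k l : Fin 6, i < k → k < l → Tri (cube p q r g i) (cube p q r g k) (cube p q r g l) := by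
  intro i k l
  fin_cases i <;> fin_cases k <;> fin_cases l <;> intro h1 h2 <;>
    first
    | exact absurd h1 (by decide)
    | exact absurd h2 (by decide)
    | exact r012 H hc hd
    | exact r013 H hc hd
    | exact r014 H hc hd
    | exact r015 H hc hd
    | exact r023 H hc hd
    | exact r123 H hc hd
    | exact r234 H hc hd
    | exact r235 H hc hd
    | exact r045 H hc hd
    | exact r145 H hc hd
    | exact r245 H hc hd
    | exact r345 H hc hd
    | exact r024 H hc hd
    | exact r025 H hc hd
    | exact r034 H hc hd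
    | exact r035 H hc hd
    | exact r124 H hc hd
    | exact r125 H hc hd
    | exact r134 H hc hd
    | exact r135 H hc hd

lemma tri_all (H : Sys R p q r g) (hc : ∀ u v : R, c * u = c * v → u = v)
    (hd : ∀ u v : R, (c - 1) * u = (c - 1) * v → u = v) (i k l : Fin 6) (h1 : i ≠ k) (h2 : i ≠ l)
    (h3 : k ≠ l) : Tri (cube p q r g i) (cube p q r g k) (cube p q r g l) := by
  have T := tri_lt H hc hd
  rcases lt_or_gt_of_ne h1 with a | a <;> rcases lt_or_gt_of_ne h2 with b | b <;>
    rcases lt_or_gt_of_ne h3 with d | d
  · exact T i k l a d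
  · exact (T i l k b d).perm2
  · exact absurd (a.trans d) (not_lt.2 b.le)
  · exact ((T l i k b a).perm1).perm2
  · exact ((T k i l a b).perm1)
  · exact absurd (d.trans a) (not_lt.2 b.le)
  · exact ((T k l i d b).perm2).perm1
  · exact (((T l k i d a).perm1).perm2).perm1

lemma mixed (H : Sys R p q r g) (hc : ∀ u v : R, c * u = c * v → u = v)
    (hd : ∀ u v : R, (c - 1) * u = (c - 1) * v → u = v) (i : Fin 6) (s : Fin 3) (x y : R × R × R)
    (h1 : ∀ u, u ≠ s → coord c p q r g u x = coord c p q r g u y)
    (h2 : cube p q r g i x = cube p q r g i y) : x = y := by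
  fin_cases s
  · have a := h1 1 (by decide)
    have b := h1 2 (by decide)
    fin_cases i
    · exact x12_0 H hc hd x y a b h2
    · exact x12_1 H hc hd x y a b h2
    · exact x12_2 H hc hd x y a b h2
    · exact x12_3 H hc hd x y a b h2
    · exact x12_4 H hc hd x y a b h2
    · exact x12_5 H hc hd x y a b h2
  · have a := h1 0 (by decide)
    have b := h1 2 (by decide)
    fin_cases i
    · exact x02_0 H hc hd x y a b h2
    · exact x02_1 H hc hd x y a b h2
    · exact x02_2 H hc hd x y a b h2
    · exact x02_3 H hc hd x y a b h2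
    · exact x02_4 H hc hd x y a b h2
    · exact x02_5 H hc hd x y a b h2
  · have a := h1 0 (by decide)
    have b := h1 1 (by decide)
    fin_cases i
    · exact x01_0 H hc hd x y a b h2
    · exact x01_1 H hc hd x y a b h2
    · exact x01_2 H hc hd x y a b h2
    · exact x01_3 H hc hd x y a b h2
    · exact x01_4 H hc hd x y a b h2
    · exact x01_5 H hc hd x y a b h2

/-- **Six cubes of dimension three from a system of eleven permutations.** -/
theorem hasVarSet [Fintype R] (H : Sys R p q r g)
    (hc : ∀ u v : R, c * u = c * v → u = v)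
    (hd : ∀ u v : R, (c - 1) * u = (c - 1) * v → u = v) : HasVarSet 3 (Fintype.card R) 6 := by
  classical
  have hΦ : Bijective (fun (x : R × R × R) (i : Fin 3) => coord c p q r g i x) := by
    rw [Fintype.bijective_iff_injective_and_card]
    constructor
    · intro x y h
      exact x012 H hc hd x y (congrFun h 0) (congrFun h 1) (congrFun h 2)
    · rw [Fintype.card_prod, Fintype.card_prod, Fintype.card_fun, Fintype.card_fin]
      ring
  let e : R × R × R ≃ (Fin 3 → R) := Equiv.ofBijective _ hΦ
  have he : ∀ (v : Fin 3 → R) (i : Fin 3), coord c p q r g i (e.symm v) = v i := fun v i =>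
    congrFun (e.apply_symm_apply v) i
  have hV : IsVarSet (fun (i : Fin 6) (v : Fin 3 → R) => cube p q r g i (e.symm v)) := by
    constructor
    · intro i v s
      rw [← Finite.injective_iff_bijective]
      intro t t' h
      have h1 : e.symm (update v s t) = e.symm (update v s t') := by
        refine mixed H hc hd i s _ _ (fun u hu => ?_) h
        rw [he, he, update_of_ne hu, update_of_ne hu]
      have h2 := congrFun (e.symm.injective h1) s
      rwa [update_self, update_self] at h2
    · intro s hs
      rw [← Finite.injective_iff_bijective]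
      intro v v' h
      apply e.symm.injective
      exact tri_all H hc hd (s 0) (s 1) (s 2) (fun h => absurd (hs h) (by decide))
        (fun h => absurd (hs h) (by decide)) (fun h => absurd (hs h) (by decide)) _ _
        (congrFun h 0) (congrFun h 1) (congrFun h 2)
  exact ⟨_, hV.transfer (Fintype.equivFin R)⟩

end

lemma inj_map {G K : Type} [AddCommGroup G] [AddCommGroup K] (e : G ≃+ K) {f : G → G}
    (hf : Injective f) {h : K → K} (hh : ∀ k, h k = e (f (e.symm k))) : Injective h := by
  have : h = e ∘ f ∘ e.symm := funext hh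
  rw [this]
  exact e.injective.comp (hf.comp e.symm.injective)

lemma Sys.map {G K : Type} [AddCommGroup G] [AddCommGroup K] {p q r g : G → G}
    (H : Sys G p q r g) (e : G ≃+ K) :
    Sys K (fun k => e (p (e.symm k))) (fun k => e (q (e.symm k))) (fun k => e (r (e.symm k)))
      (fun k => e (g (e.symm k))) where
  ip := inj_map e H.ip fun k => rfl
  iq := inj_map e H.iq fun k => rfl
  ir := inj_map e H.ir fun k => rfl
  g0 := inj_map e H.g0 fun k => rfl
  g1 := inj_map e H.g1 fun k => by simp
  g2 := inj_map e H.g2 fun k => by simp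
  g3 := inj_map e H.g3 fun k => by simp
  g12 := inj_map e H.g12 fun k => by simp
  g13 := inj_map e H.g13 fun k => by simp
  g23 := inj_map e H.g23 fun k => by simp
  g123 := inj_map e H.g123 fun k => by simp

/-- systems from one function: with `3 e = 0` the four functions `P`, `j + P j`,
`j + P j + P (j - e)`, `j + P j + P (j - e) + P (j + e)` give a system of eleven permutations -/
lemma Sys.cyc {G : Type} [AddCommGroup G] {P : G → G} {e : G} (he : e + e + e = 0)
    (h1 : Injective P) (h2 : Injective fun j => j + P j)
    (h3 : Injective fun j => j + P j + P (j - e))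
    (h4 : Injective fun j => j + P j + P (j - e) + P (j + e)) :
    Sys G P (fun j => P (j - e)) (fun j => P (j + e)) (fun j => j) := by
  have hs : ∀ j : G, j - e - e = j + e := fun j => by
    have : j - e - e = j + e - (e + e + e) := by abel
    rw [this, he, sub_zero]
  have sub_inj : Injective fun j : G => j - e := fun a b h => sub_left_injective h
  have add_inj : Injective fun j : G => j + e := fun a b h => add_left_injective e h
  refine ⟨h1, h1.comp sub_inj, h1.comp add_inj, injective_id, h2, ?_, ?_, h3, ?_, ?_, h4⟩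
  · have : (fun j : G => j + P (j - e)) = (fun x => x + e) ∘ (fun j => j + P j) ∘ (fun j => j - e) := by
      funext j; simp only [comp]; abel
    rw [this]
    exact add_inj.comp (h2.comp sub_inj)
  · have : (fun j : G => j + P (j + e)) = (fun x => x - e) ∘ (fun j => j + P j) ∘ (fun j => j + e) := by
      funext j; simp only [comp]; abel
    rw [this]
    exact sub_inj.comp (h2.comp add_inj)
  · have : (fun j : G => j + P j + P (j + e)) =
        (fun x => x - e) ∘ (fun j => j + P j + P (j - e)) ∘ (fun j => j + e) := by
      funext j; simp only [comp, add_sub_cancel_right]; abel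
    rw [this]
    exact sub_inj.comp (h3.comp add_inj)
  · have : (fun j : G => j + P (j - e) + P (j + e)) =
        (fun x => x + e) ∘ (fun j => j + P j + P (j - e)) ∘ (fun j => j - e) := by
      funext j; simp only [comp, hs]; abel
    rw [this]
    exact add_inj.comp (h3.comp sub_inj)

/-- odd cyclic groups -/
theorem hasVarSet_zmod {n : ℕ} [NeZero n] (hn : Odd n) {p q r g : ZMod n → ZMod n}
    (H : Sys (ZMod n) p q r g) : HasVarSet 3 n 6 := by
  have h := hasVarSet (c := (-1 : ZMod n)) H (fun u v h => by
    have := congrArg (fun t => -t) h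
    simpa using this) (fun u v h => by
    obtain ⟨m, hm⟩ := hn
    have h2 : (((m + 1 : ℕ)) : ZMod n) * 2 = 1 := by
      have : (((m + 1) * 2 : ℕ) : ZMod n) = ((n + 1 : ℕ) : ZMod n) := by
        congr 1; omega
      push_cast at this ⊢
      rw [this]
      simp
    have h3 : (((m + 1 : ℕ)) : ZMod n) * ((-1 - 1) * u) = (((m + 1 : ℕ)) : ZMod n) * ((-1 - 1) * v) := by
      rw [h]
    linear_combination (-1 : ZMod n) * h3 - (u - v) * h2)
  rwa [ZMod.card] at h

/-- products of a field and the field with three elements -/
theorem hasVarSet_field {K : Type} [Field K] [Fintype K] (hK : 3 ≤ Fintype.card K)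
    {p q r g : K × ZMod 3 → K × ZMod 3} (H : Sys (K × ZMod 3) p q r g) :
    HasVarSet 3 (Fintype.card K * 3) 6 := by
  classical
  obtain ⟨w, hw⟩ : ∃ w : K, w ∉ ({0, 1} : Finset K) := by
    by_contra hcon
    push Not at hcon
    have h1 : (univ : Finset K) ⊆ {0, 1} := fun a _ => hcon a
    have h2 := card_le_card h1
    have h3 : ({0, 1} : Finset K).card ≤ 2 := card_le_two
    rw [card_univ] at h2
    omega
  simp only [mem_insert, mem_singleton, not_or] at hw
  have h3 : (-1 : ZMod 3) ≠ 0 := by decide
  have h4 : (-1 - 1 : ZMod 3) ≠ 0 := by decide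
  have : Fact (Nat.Prime 3) := ⟨Nat.prime_three⟩
  have h := hasVarSet (c := ((w, -1) : K × ZMod 3)) H (fun u v h => by
    have h5 := congrArg Prod.fst h
    have h6 := congrArg Prod.snd h
    simp only [Prod.fst_mul, Prod.snd_mul] at h5 h6
    exact Prod.ext (mul_left_cancel₀ hw.1 h5) (mul_left_cancel₀ h3 h6)) (fun u v h => by
    have h5 := congrArg Prod.fst h
    have h6 := congrArg Prod.snd h
    simp only [Prod.fst_mul, Prod.snd_mul, Prod.fst_sub, Prod.snd_sub, Prod.fst_one,
      Prod.snd_one] at h5 h6
    exact Prod.ext (mul_left_cancel₀ (sub_ne_zero.2 hw.2) h5) (mul_left_cancel₀ h4 h6))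
  rwa [Fintype.card_prod, ZMod.card] at h

/-! ### tables for odd cyclic groups -/

/-- the list of the `(L j + j) mod n` -/
def plus (n : ℕ) (L : List ℕ) : List ℕ :=
  List.zipWith (fun j v => (v + j) % n) (List.range n) L

/-- the sum of two lists -/
def ad (L M : List ℕ) : List ℕ := List.zipWith (· + ·) L M

lemma getD_plus {n : ℕ} {L : List ℕ} (hL : L.length = n) {j : ℕ} (hj : j < n) :
    (plus n L).getD j 0 = (L.getD j 0 + j) % n := by
  have h1 : j < (plus n L).length := by
    rw [plus, List.length_zipWith, List.length_range, hL, min_self]; exact hj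
  rw [List.getD_eq_getElem _ _ h1, List.getD_eq_getElem _ _ (by rw [hL]; exact hj)]
  simp only [plus, List.getElem_zipWith, List.getElem_range]

lemma length_ad {n : ℕ} {L M : List ℕ} (hL : L.length = n) (hM : M.length = n) :
    (ad L M).length = n := by
  rw [ad, List.length_zipWith, hL, hM, min_self]

lemma getD_ad {n : ℕ} {L M : List ℕ} (hL : L.length = n) (hM : M.length = n) {j : ℕ} (hj : j < n) :
    (ad L M).getD j 0 = L.getD j 0 + M.getD j 0 := by
  have h1 : j < (ad L M).length := by rw [length_ad hL hM]; exact hj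
  rw [List.getD_eq_getElem _ _ h1, List.getD_eq_getElem _ _ (by rw [hL]; exact hj),
    List.getD_eq_getElem _ _ (by rw [hM]; exact hj)]
  simp only [ad, List.getElem_zipWith]

/-- the check for a table -/
def ok6 (n : ℕ) (P Q S : List ℕ) : Bool :=
  okL n P && (okL n Q && (okL n S && (okL n (plus n P) && (okL n (plus n Q) && (okL n (plus n S) &&
    (okL n (plus n (ad P Q)) && (okL n (plus n (ad P S)) && (okL n (plus n (ad Q S)) &&
      okL n (plus n (ad (ad P Q) S))))))))))

theorem hasVarSet_table {n : ℕ} (hn : Odd n) (P Q S : List ℕ) (h : ok6 n P Q S = true) :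
    HasVarSet 3 n 6 := by
  have : NeZero n := ⟨by rintro rfl; exact absurd hn (by decide)⟩
  simp only [ok6, Bool.and_eq_true] at h
  obtain ⟨h1, h2, h3, h4, h5, h6, h7, h8, h9, h10⟩ := h
  have l1 : P.length = n := by rw [← (perm_of_okL h1).length_eq, List.length_range]
  have l2 : Q.length = n := by rw [← (perm_of_okL h2).length_eq, List.length_range]
  have l3 : S.length = n := by rw [← (perm_of_okL h3).length_eq, List.length_range]
  have hs : ∀ (L : List ℕ), L.length = n → ∀ j : ZMod n,
      (((plus n L).getD j.val 0 : ℕ) : ZMod n) = j + ((L.getD j.val 0 : ℕ) : ZMod n) := by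
    intro L hL j
    rw [getD_plus hL (ZMod.val_lt j), ZMod.natCast_mod, Nat.cast_add, ZMod.natCast_zmod_val,
      add_comm]
  have ha : ∀ (L M : List ℕ), L.length = n → M.length = n → ∀ j : ZMod n,
      (((ad L M).getD j.val 0 : ℕ) : ZMod n) =
        ((L.getD j.val 0 : ℕ) : ZMod n) + ((M.getD j.val 0 : ℕ) : ZMod n) := by
    intro L M hL hM j
    rw [getD_ad hL hM (ZMod.val_lt j), Nat.cast_add]
  refine hasVarSet_zmod hn (p := fun j => (P.getD j.val 0 : ℕ)) (q := fun j => (Q.getD j.val 0 : ℕ))
    (r := fun j => (S.getD j.val 0 : ℕ)) (g := fun j => j)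
    ⟨inj_of_okL h1 fun j => rfl, inj_of_okL h2 fun j => rfl, inj_of_okL h3 fun j => rfl,
      injective_id, inj_of_okL h4 fun j => (hs P l1 j).symm, inj_of_okL h5 fun j => (hs Q l2 j).symm,
      inj_of_okL h6 fun j => (hs S l3 j).symm, inj_of_okL h7 fun j => ?_,
      inj_of_okL h8 fun j => ?_, inj_of_okL h9 fun j => ?_, inj_of_okL h10 fun j => ?_⟩
  · rw [hs _ (length_ad l1 l2), ha P Q l1 l2, add_assoc]
  · rw [hs _ (length_ad l1 l3), ha P S l1 l3, add_assoc]
  · rw [hs _ (length_ad l2 l3), ha Q S l2 l3, add_assoc]
  · rw [hs _ (length_ad (length_ad l1 l2) l3), ha _ S (length_ad l1 l2) l3, ha P Q l1 l2, add_assoc,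
      add_assoc, add_assoc]

end Pool.Agent.H58.DM.Six
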