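import Pool.Graph.R_pool_sql_team_b88adf34.Results.MP_c7a479_co.VarSets

/-!
# Variational sets of five three-dimensional cubes from difference matrices with four rows

Let `R` be a finite commutative ring with a unit `c` such that `c - 1` is a unit, and let `x`, `y` be
functions on `R` such that `x`, `y`, `x - id`, `y - id` and `x + y - id` are bijective. Then there is
a variational set of five three-dimensional permutation cubes of order `|R|`.
-/

set_option autoImplicit false
set_option linter.unusedVariables false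
set_option linter.unusedSimpArgs false
set_option linter.unusedSectionVars false

open Finset Function

namespace Pool.Agent.H58.DM

/-- `x` and `y` are bijective, and so are `x - id`, `y - id`, `x + y - id`: the rows
`0, id, x, id - y` form a difference matrix -/
structure Pair (R : Type) [AddCommGroup R] (x y : R → R) : Prop where
  ix : Injective x
  iy : Injective y
  ixj : Injective fun j => x j - j
  iyj : Injective fun j => y j - j
  ixy : Injective fun j => x j + y j - j

section
variable {R : Type} [CommRing R]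

/-- the five cubes as functions of the parameters -/
def cube (x y : R → R) : Fin 5 → R × R × R → R
  | 0, p => p.2.1
  | 1, p => x p.1 + p.2.1
  | 2, p => p.2.2
  | 3, p => y p.1 + p.2.2
  | 4, p => p.1 + p.2.1 + p.2.2

/-- the three coordinates as functions of the parameters -/
def coord (c : R) (x y : R → R) : Fin 3 → R × R × R → R
  | 0, p => p.1 - y p.1 + c * p.1 + p.2.1 + c * p.2.2
  | 1, p => p.1 - y p.1 + c * (p.1 - x p.1) + p.2.1 + c * p.2.2
  | 2, p => p.1 - y p.1 + p.2.1

/-- three functions are jointly injective -/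
def Tri (f g h : R × R × R → R) : Prop := ∀ p q, f p = f q → g p = g q → h p = h q → p = q

lemma Tri.perm1 {f g h : R × R × R → R} (H : Tri f g h) : Tri g f h := fun p q h1 h2 h3 => H p q h2 h1 h3

lemma Tri.perm2 {f g h : R × R × R → R} (H : Tri f g h) : Tri f h g := fun p q h1 h2 h3 => H p q h1 h3 h2

variable {x y : R → R} {c : R}

lemma r012 (H : Pair R x y) (hc : ∀ u v : R, c * u = c * v → u = v)
    (hd : ∀ u v : R, (c - 1) * u = (c - 1) * v → u = v) :
    Tri (cube x y 0) (cube x y 1) (cube x y 2) := by
  rintro ⟨j, a, b⟩ ⟨j', a', b'⟩ h1 h2 h3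
  simp only [cube, coord] at h1 h2 h3
  have hj : j = j' := H.ix (by linear_combination h2 - h1)
  subst hj
  have ha : a = a' := by linear_combination h1
  have hb : b = b' := by linear_combination h3
  rw [ha, hb]

lemma r013 (H : Pair R x y) (hc : ∀ u v : R, c * u = c * v → u = v)
    (hd : ∀ u v : R, (c - 1) * u = (c - 1) * v → u = v) :
    Tri (cube x y 0) (cube x y 1) (cube x y 3) := by
  rintro ⟨j, a, b⟩ ⟨j', a', b'⟩ h1 h2 h3
  simp only [cube, coord] at h1 h2 h3
  have hj : j = j' := H.ix (by linear_combination h2 - h1)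
  subst hj
  have ha : a = a' := by linear_combination h1
  have hb : b = b' := by linear_combination h3
  rw [ha, hb]

lemma r014 (H : Pair R x y) (hc : ∀ u v : R, c * u = c * v → u = v)
    (hd : ∀ u v : R, (c - 1) * u = (c - 1) * v → u = v) :
    Tri (cube x y 0) (cube x y 1) (cube x y 4) := by
  rintro ⟨j, a, b⟩ ⟨j', a', b'⟩ h1 h2 h3
  simp only [cube, coord] at h1 h2 h3
  have hj : j = j' := H.ix (by linear_combination h2 - h1)
  subst hj
  have ha : a = a' := by linear_combination h1
  have hb : b = b' := by linear_combination h3 - h1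
  rw [ha, hb]

lemma r023 (H : Pair R x y) (hc : ∀ u v : R, c * u = c * v → u = v)
    (hd : ∀ u v : R, (c - 1) * u = (c - 1) * v → u = v) :
    Tri (cube x y 0) (cube x y 2) (cube x y 3) := by
  rintro ⟨j, a, b⟩ ⟨j', a', b'⟩ h1 h2 h3
  simp only [cube, coord] at h1 h2 h3
  have hj : j = j' := H.iy (by linear_combination h3 - h2)
  subst hj
  have ha : a = a' := by linear_combination h1
  have hb : b = b' := by linear_combination h2
  rw [ha, hb]

lemma r123 (H : Pair R x y) (hc : ∀ u v : R, c * u = c * v → u = v)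
    (hd : ∀ u v : R, (c - 1) * u = (c - 1) * v → u = v) :
    Tri (cube x y 1) (cube x y 2) (cube x y 3) := by
  rintro ⟨j, a, b⟩ ⟨j', a', b'⟩ h1 h2 h3
  simp only [cube, coord] at h1 h2 h3
  have hj : j = j' := H.iy (by linear_combination h3 - h2)
  subst hj
  have ha : a = a' := by linear_combination h1
  have hb : b = b' := by linear_combination h2
  rw [ha, hb]

lemma r234 (H : Pair R x y) (hc : ∀ u v : R, c * u = c * v → u = v)
    (hd : ∀ u v : R, (c - 1) * u = (c - 1) * v → u = v) :
    Tri (cube x y 2) (cube x y 3) (cube x y 4) := by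
  rintro ⟨j, a, b⟩ ⟨j', a', b'⟩ h1 h2 h3
  simp only [cube, coord] at h1 h2 h3
  have hj : j = j' := H.iy (by linear_combination h2 - h1)
  subst hj
  have ha : a = a' := by linear_combination h3 - h1
  have hb : b = b' := by linear_combination h1
  rw [ha, hb]

lemma r024 (H : Pair R x y) (hc : ∀ u v : R, c * u = c * v → u = v)
    (hd : ∀ u v : R, (c - 1) * u = (c - 1) * v → u = v) :
    Tri (cube x y 0) (cube x y 2) (cube x y 4) := by
  rintro ⟨j, a, b⟩ ⟨j', a', b'⟩ h1 h2 h3
  simp only [cube, coord] at h1 h2 h3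
  have hj : j = j' := by linear_combination h3 - h1 - h2
  subst hj
  have ha : a = a' := by linear_combination h1
  have hb : b = b' := by linear_combination h2
  rw [ha, hb]

lemma r034 (H : Pair R x y) (hc : ∀ u v : R, c * u = c * v → u = v)
    (hd : ∀ u v : R, (c - 1) * u = (c - 1) * v → u = v) :
    Tri (cube x y 0) (cube x y 3) (cube x y 4) := by
  rintro ⟨j, a, b⟩ ⟨j', a', b'⟩ h1 h2 h3
  simp only [cube, coord] at h1 h2 h3
  have hj : j = j' := H.iyj (show y j - j = y j' - j' by linear_combination h1 + h2 - h3)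
  subst hj
  have ha : a = a' := by linear_combination h1
  have hb : b = b' := by linear_combination h2
  rw [ha, hb]

lemma r124 (H : Pair R x y) (hc : ∀ u v : R, c * u = c * v → u = v)
    (hd : ∀ u v : R, (c - 1) * u = (c - 1) * v → u = v) :
    Tri (cube x y 1) (cube x y 2) (cube x y 4) := by
  rintro ⟨j, a, b⟩ ⟨j', a', b'⟩ h1 h2 h3
  simp only [cube, coord] at h1 h2 h3
  have hj : j = j' := H.ixj (show x j - j = x j' - j' by linear_combination h1 + h2 - h3)
  subst hj
  have ha : a = a' := by linear_combination h1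
  have hb : b = b' := by linear_combination h2
  rw [ha, hb]

lemma r134 (H : Pair R x y) (hc : ∀ u v : R, c * u = c * v → u = v)
    (hd : ∀ u v : R, (c - 1) * u = (c - 1) * v → u = v) :
    Tri (cube x y 1) (cube x y 3) (cube x y 4) := by
  rintro ⟨j, a, b⟩ ⟨j', a', b'⟩ h1 h2 h3
  simp only [cube, coord] at h1 h2 h3
  have hj : j = j' := H.ixy (show x j + y j - j = x j' + y j' - j' by linear_combination h1 + h2 - h3)
  subst hj
  have ha : a = a' := by linear_combination h1
  have hb : b = b' := by linear_combination h2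
  rw [ha, hb]

lemma x01_0 (H : Pair R x y) (hc : ∀ u v : R, c * u = c * v → u = v)
    (hd : ∀ u v : R, (c - 1) * u = (c - 1) * v → u = v) :
    Tri (coord c x y 0) (coord c x y 1) (cube x y 0) := by
  rintro ⟨j, a, b⟩ ⟨j', a', b'⟩ h1 h2 h3
  simp only [cube, coord] at h1 h2 h3
  have hj : j = j' := H.ix (hc _ _ (by linear_combination h1 - h2))
  subst hj
  have ha : a = a' := by linear_combination h3
  have hb : b = b' := hc _ _ (by linear_combination h1 - h3)
  rw [ha, hb]

lemma x01_1 (H : Pair R x y) (hc : ∀ u v : R, c * u = c * v → u = v)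
    (hd : ∀ u v : R, (c - 1) * u = (c - 1) * v → u = v) :
    Tri (coord c x y 0) (coord c x y 1) (cube x y 1) := by
  rintro ⟨j, a, b⟩ ⟨j', a', b'⟩ h1 h2 h3
  simp only [cube, coord] at h1 h2 h3
  have hj : j = j' := H.ix (hc _ _ (by linear_combination h1 - h2))
  subst hj
  have ha : a = a' := by linear_combination h3
  have hb : b = b' := hc _ _ (by linear_combination h1 - h3)
  rw [ha, hb]

lemma x01_2 (H : Pair R x y) (hc : ∀ u v : R, c * u = c * v → u = v)
    (hd : ∀ u v : R, (c - 1) * u = (c - 1) * v → u = v) :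
    Tri (coord c x y 0) (coord c x y 1) (cube x y 2) := by
  rintro ⟨j, a, b⟩ ⟨j', a', b'⟩ h1 h2 h3
  simp only [cube, coord] at h1 h2 h3
  have hj : j = j' := H.ix (hc _ _ (by linear_combination h1 - h2))
  subst hj
  have hb : b = b' := by linear_combination h3
  have ha : a = a' := by linear_combination h1 - c * h3
  rw [ha, hb]

lemma x01_3 (H : Pair R x y) (hc : ∀ u v : R, c * u = c * v → u = v)
    (hd : ∀ u v : R, (c - 1) * u = (c - 1) * v → u = v) :
    Tri (coord c x y 0) (coord c x y 1) (cube x y 3) := by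
  rintro ⟨j, a, b⟩ ⟨j', a', b'⟩ h1 h2 h3
  simp only [cube, coord] at h1 h2 h3
  have hj : j = j' := H.ix (hc _ _ (by linear_combination h1 - h2))
  subst hj
  have hb : b = b' := by linear_combination h3
  have ha : a = a' := by linear_combination h1 - c * h3
  rw [ha, hb]

lemma x01_4 (H : Pair R x y) (hc : ∀ u v : R, c * u = c * v → u = v)
    (hd : ∀ u v : R, (c - 1) * u = (c - 1) * v → u = v) :
    Tri (coord c x y 0) (coord c x y 1) (cube x y 4) := by
  rintro ⟨j, a, b⟩ ⟨j', a', b'⟩ h1 h2 h3
  simp only [cube, coord] at h1 h2 h3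
  have hj : j = j' := H.ix (hc _ _ (by linear_combination h1 - h2))
  subst hj
  have hb : b = b' := hd _ _ (by linear_combination h1 - h3)
  have ha : a = a' := by linear_combination h3 - hb
  rw [ha, hb]

lemma x012 (H : Pair R x y) (hc : ∀ u v : R, c * u = c * v → u = v)
    (hd : ∀ u v : R, (c - 1) * u = (c - 1) * v → u = v) :
    Tri (coord c x y 0) (coord c x y 1) (coord c x y 2) := by
  rintro ⟨j, a, b⟩ ⟨j', a', b'⟩ h1 h2 h3
  simp only [cube, coord] at h1 h2 h3
  have hj : j = j' := H.ix (hc _ _ (by linear_combination h1 - h2))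
  subst hj
  have ha : a = a' := by linear_combination h3
  have hb : b = b' := hc _ _ (by linear_combination h1 - h3)
  rw [ha, hb]

lemma x02_0 (H : Pair R x y) (hc : ∀ u v : R, c * u = c * v → u = v)
    (hd : ∀ u v : R, (c - 1) * u = (c - 1) * v → u = v) :
    Tri (coord c x y 0) (coord c x y 2) (cube x y 0) := by
  rintro ⟨j, a, b⟩ ⟨j', a', b'⟩ h1 h2 h3
  simp only [cube, coord] at h1 h2 h3
  have hj : j = j' := H.iyj (show y j - j = y j' - j' by linear_combination h3 - h2)
  subst hj
  have ha : a = a' := by linear_combination h3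
  have hb : b = b' := hc _ _ (by linear_combination h1 - h3)
  rw [ha, hb]

lemma x02_1 (H : Pair R x y) (hc : ∀ u v : R, c * u = c * v → u = v)
    (hd : ∀ u v : R, (c - 1) * u = (c - 1) * v → u = v) :
    Tri (coord c x y 0) (coord c x y 2) (cube x y 1) := by
  rintro ⟨j, a, b⟩ ⟨j', a', b'⟩ h1 h2 h3
  simp only [cube, coord] at h1 h2 h3
  have hj : j = j' := H.ixy (show x j + y j - j = x j' + y j' - j' by linear_combination h3 - h2)
  subst hj
  have ha : a = a' := by linear_combination h3
  have hb : b = b' := hc _ _ (by linear_combination h1 - h3)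
  rw [ha, hb]

lemma x02_2 (H : Pair R x y) (hc : ∀ u v : R, c * u = c * v → u = v)
    (hd : ∀ u v : R, (c - 1) * u = (c - 1) * v → u = v) :
    Tri (coord c x y 0) (coord c x y 2) (cube x y 2) := by
  rintro ⟨j, a, b⟩ ⟨j', a', b'⟩ h1 h2 h3
  simp only [cube, coord] at h1 h2 h3
  have hj : j = j' := hc _ _ (by linear_combination h1 - h2 - c * h3)
  subst hj
  have ha : a = a' := by linear_combination h2
  have hb : b = b' := by linear_combination h3
  rw [ha, hb]

lemma x02_3 (H : Pair R x y) (hc : ∀ u v : R, c * u = c * v → u = v)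
    (hd : ∀ u v : R, (c - 1) * u = (c - 1) * v → u = v) :
    Tri (coord c x y 0) (coord c x y 2) (cube x y 3) := by
  rintro ⟨j, a, b⟩ ⟨j', a', b'⟩ h1 h2 h3
  simp only [cube, coord] at h1 h2 h3
  have hj : j = j' := H.iyj (show y j - j = y j' - j' from hc _ _ (by linear_combination -(h1 - h2 - c * h3)))
  subst hj
  have ha : a = a' := by linear_combination h2
  have hb : b = b' := by linear_combination h3
  rw [ha, hb]

lemma x02_4 (H : Pair R x y) (hc : ∀ u v : R, c * u = c * v → u = v)
    (hd : ∀ u v : R, (c - 1) * u = (c - 1) * v → u = v) :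
    Tri (coord c x y 0) (coord c x y 2) (cube x y 4) := by
  rintro ⟨j, a, b⟩ ⟨j', a', b'⟩ h1 h2 h3
  simp only [cube, coord] at h1 h2 h3
  have hj : j = j' := H.iyj (show y j - j = y j' - j' from hc _ _ (by linear_combination -(h1 - c * h3 - (1 - c) * h2)))
  subst hj
  have ha : a = a' := by linear_combination h2
  have hb : b = b' := by linear_combination h3 - ha
  rw [ha, hb]

lemma x12_0 (H : Pair R x y) (hc : ∀ u v : R, c * u = c * v → u = v)
    (hd : ∀ u v : R, (c - 1) * u = (c - 1) * v → u = v) :
    Tri (coord c x y 1) (coord c x y 2) (cube x y 0) := by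
  rintro ⟨j, a, b⟩ ⟨j', a', b'⟩ h1 h2 h3
  simp only [cube, coord] at h1 h2 h3
  have hj : j = j' := H.iyj (show y j - j = y j' - j' by linear_combination h3 - h2)
  subst hj
  have ha : a = a' := by linear_combination h3
  have hb : b = b' := hc _ _ (by linear_combination h1 - h3)
  rw [ha, hb]

lemma x12_1 (H : Pair R x y) (hc : ∀ u v : R, c * u = c * v → u = v)
    (hd : ∀ u v : R, (c - 1) * u = (c - 1) * v → u = v) :
    Tri (coord c x y 1) (coord c x y 2) (cube x y 1) := by
  rintro ⟨j, a, b⟩ ⟨j', a', b'⟩ h1 h2 h3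
  simp only [cube, coord] at h1 h2 h3
  have hj : j = j' := H.ixy (show x j + y j - j = x j' + y j' - j' by linear_combination h3 - h2)
  subst hj
  have ha : a = a' := by linear_combination h3
  have hb : b = b' := hc _ _ (by linear_combination h1 - h3)
  rw [ha, hb]

lemma x12_2 (H : Pair R x y) (hc : ∀ u v : R, c * u = c * v → u = v)
    (hd : ∀ u v : R, (c - 1) * u = (c - 1) * v → u = v) :
    Tri (coord c x y 1) (coord c x y 2) (cube x y 2) := by
  rintro ⟨j, a, b⟩ ⟨j', a', b'⟩ h1 h2 h3
  simp only [cube, coord] at h1 h2 h3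
  have hj : j = j' := H.ixj (show x j - j = x j' - j' from hc _ _ (by linear_combination -(h1 - h2 - c * h3)))
  subst hj
  have ha : a = a' := by linear_combination h2
  have hb : b = b' := by linear_combination h3
  rw [ha, hb]

lemma x12_3 (H : Pair R x y) (hc : ∀ u v : R, c * u = c * v → u = v)
    (hd : ∀ u v : R, (c - 1) * u = (c - 1) * v → u = v) :
    Tri (coord c x y 1) (coord c x y 2) (cube x y 3) := by
  rintro ⟨j, a, b⟩ ⟨j', a', b'⟩ h1 h2 h3
  simp only [cube, coord] at h1 h2 h3
  have hj : j = j' := H.ixy (show x j + y j - j = x j' + y j' - j' from hc _ _ (by linear_combination -(h1 - h2 - c * h3)))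
  subst hj
  have ha : a = a' := by linear_combination h2
  have hb : b = b' := by linear_combination h3
  rw [ha, hb]

lemma x12_4 (H : Pair R x y) (hc : ∀ u v : R, c * u = c * v → u = v)
    (hd : ∀ u v : R, (c - 1) * u = (c - 1) * v → u = v) :
    Tri (coord c x y 1) (coord c x y 2) (cube x y 4) := by
  rintro ⟨j, a, b⟩ ⟨j', a', b'⟩ h1 h2 h3
  simp only [cube, coord] at h1 h2 h3
  have hj : j = j' := H.ixy (show x j + y j - j = x j' + y j' - j' from hc _ _ (by linear_combination -(h1 - c * h3 - (1 - c) * h2)))
  subst hj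
  have ha : a = a' := by linear_combination h2
  have hb : b = b' := by linear_combination h3 - ha
  rw [ha, hb]

end

end Pool.Agent.H58.DM
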