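import Pool.Graph.R_pool_sql_team_b88adf34.Results.MP_c7a479_co.VarSets

/-!
# Variational sets of six four-dimensional cubes from two functions on a ring

Let `R` be a finite commutative ring with a unit `c` such that `c - 1` is a unit, and let `C`, `E` be
functions on `R` such that `C`, `C - id`, `C - c id`, `E`, `E - id`, `E - c id` and `C - E` are
bijective. Then there is a variational set of six four-dimensional permutation cubes of order `|R|`.
-/

set_option autoImplicit false
set_option linter.unusedVariables false
set_option linter.unusedSimpArgs false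
set_option linter.unusedSectionVars false

open Finset Function

namespace Pool.Agent.H58.DM.Four

/-- the seven functions are injective -/
structure Sys (R : Type) [CommRing R] (c : R) (C E : R → R) : Prop where
  iC : Injective C
  iC1 : Injective fun j => C j - j
  iCc : Injective fun j => C j - c * j
  iE : Injective E
  iE1 : Injective fun j => E j - j
  iEc : Injective fun j => E j - c * j
  iD : Injective fun j => C j - E j

section
variable {R : Type} [CommRing R]

/-- the six cubes as functions of the parameters -/
def cube (c : R) (C E : R → R) : Fin 6 → R × R × R × R → R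
  | 0, x => x.2.1 - E x.1
  | 1, x => x.2.1 - C x.1
  | 2, x => x.2.2.1
  | 3, x => x.2.2.2
  | 4, x => x.2.2.1 + x.2.2.2 - x.1
  | 5, x => x.2.1 - x.2.2.1 - c * x.2.2.2

/-- the four coordinates as functions of the parameters -/
def coord (c : R) : Fin 4 → R × R × R × R → R
  | 0, x => x.2.2.2 - x.1
  | 1, x => x.2.2.1 - x.1
  | 2, x => x.2.1 - c * x.2.2.2
  | 3, x => x.2.1 - x.2.2.1

variable {C E : R → R} {c : R}

lemma q01 (H : Sys R c C E) (hc : ∀ u v : R, c * u = c * v → u = v)
    (hd : ∀ u v : R, (c - 1) * u = (c - 1) * v → u = v) (p q : R × R × R × R)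
    (h : ∀ i, i ≠ 0 → i ≠ 1 → cube c C E i p = cube c C E i q) :
    p = q := by
  have h1 := h 2 (by decide) (by decide)
  have h2 := h 3 (by decide) (by decide)
  have h3 := h 4 (by decide) (by decide)
  have h4 := h 5 (by decide) (by decide)
  obtain ⟨j, a, b, d⟩ := p
  obtain ⟨j', a', b', d'⟩ := q
  simp only [cube, coord] at h1 h2 h3 h4
  have hj : j = j' := by linear_combination h1 + h2 - h3
  subst hj
  have ha : a = a' := by linear_combination h1 + (c) * h2 + h4
  have hb : b = b' := by linear_combination h1
  have hdd : d = d' := by linear_combination h2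
  rw [ha, hb, hdd]

lemma q02 (H : Sys R c C E) (hc : ∀ u v : R, c * u = c * v → u = v)
    (hd : ∀ u v : R, (c - 1) * u = (c - 1) * v → u = v) (p q : R × R × R × R)
    (h : ∀ i, i ≠ 0 → i ≠ 2 → cube c C E i p = cube c C E i q) :
    p = q := by
  have h1 := h 1 (by decide) (by decide)
  have h2 := h 3 (by decide) (by decide)
  have h3 := h 4 (by decide) (by decide)
  have h4 := h 5 (by decide) (by decide)
  obtain ⟨j, a, b, d⟩ := p
  obtain ⟨j', a', b', d'⟩ := q
  simp only [cube, coord] at h1 h2 h3 h4
  have hj : j = j' := H.iC1 (show C j - j = C j' - j' from by linear_combination -h1 + (c - 1) * h2 + h3 + h4)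
  subst hj
  have ha : a = a' := by linear_combination h1
  have hb : b = b' := by linear_combination -h2 + h3
  have hdd : d = d' := by linear_combination h2
  rw [ha, hb, hdd]

lemma q03 (H : Sys R c C E) (hc : ∀ u v : R, c * u = c * v → u = v)
    (hd : ∀ u v : R, (c - 1) * u = (c - 1) * v → u = v) (p q : R × R × R × R)
    (h : ∀ i, i ≠ 0 → i ≠ 3 → cube c C E i p = cube c C E i q) :
    p = q := by
  have h1 := h 1 (by decide) (by decide)
  have h2 := h 2 (by decide) (by decide)
  have h3 := h 4 (by decide) (by decide)
  have h4 := h 5 (by decide) (by decide)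
  obtain ⟨j, a, b, d⟩ := p
  obtain ⟨j', a', b', d'⟩ := q
  simp only [cube, coord] at h1 h2 h3 h4
  have hj : j = j' := H.iCc (show C j - c * j = C j' - c * j' from by linear_combination -h1 + (-c + 1) * h2 + (c) * h3 + h4)
  subst hj
  have ha : a = a' := by linear_combination h1
  have hb : b = b' := by linear_combination h2
  have hdd : d = d' := by linear_combination -h2 + h3
  rw [ha, hb, hdd]

lemma q04 (H : Sys R c C E) (hc : ∀ u v : R, c * u = c * v → u = v)
    (hd : ∀ u v : R, (c - 1) * u = (c - 1) * v → u = v) (p q : R × R × R × R)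
    (h : ∀ i, i ≠ 0 → i ≠ 4 → cube c C E i p = cube c C E i q) :
    p = q := by
  have h1 := h 1 (by decide) (by decide)
  have h2 := h 2 (by decide) (by decide)
  have h3 := h 3 (by decide) (by decide)
  have h4 := h 5 (by decide) (by decide)
  obtain ⟨j, a, b, d⟩ := p
  obtain ⟨j', a', b', d'⟩ := q
  simp only [cube, coord] at h1 h2 h3 h4
  have hj : j = j' := H.iC (show C j = C j' from by linear_combination -h1 + h2 + (c) * h3 + h4)
  subst hj
  have ha : a = a' := by linear_combination h1
  have hb : b = b' := by linear_combination h2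
  have hdd : d = d' := by linear_combination h3
  rw [ha, hb, hdd]

lemma q05 (H : Sys R c C E) (hc : ∀ u v : R, c * u = c * v → u = v)
    (hd : ∀ u v : R, (c - 1) * u = (c - 1) * v → u = v) (p q : R × R × R × R)
    (h : ∀ i, i ≠ 0 → i ≠ 5 → cube c C E i p = cube c C E i q) :
    p = q := by
  have h1 := h 1 (by decide) (by decide)
  have h2 := h 2 (by decide) (by decide)
  have h3 := h 3 (by decide) (by decide)
  have h4 := h 4 (by decide) (by decide)
  obtain ⟨j, a, b, d⟩ := p
  obtain ⟨j', a', b', d'⟩ := q
  simp only [cube, coord] at h1 h2 h3 h4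
  have hj : j = j' := by linear_combination h2 + h3 - h4
  subst hj
  have ha : a = a' := by linear_combination h1
  have hb : b = b' := by linear_combination h2
  have hdd : d = d' := by linear_combination h3
  rw [ha, hb, hdd]

lemma q12 (H : Sys R c C E) (hc : ∀ u v : R, c * u = c * v → u = v)
    (hd : ∀ u v : R, (c - 1) * u = (c - 1) * v → u = v) (p q : R × R × R × R)
    (h : ∀ i, i ≠ 1 → i ≠ 2 → cube c C E i p = cube c C E i q) :
    p = q := by
  have h1 := h 0 (by decide) (by decide)
  have h2 := h 3 (by decide) (by decide)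
  have h3 := h 4 (by decide) (by decide)
  have h4 := h 5 (by decide) (by decide)
  obtain ⟨j, a, b, d⟩ := p
  obtain ⟨j', a', b', d'⟩ := q
  simp only [cube, coord] at h1 h2 h3 h4
  have hj : j = j' := H.iE1 (show E j - j = E j' - j' from by linear_combination -h1 + (c - 1) * h2 + h3 + h4)
  subst hj
  have ha : a = a' := by linear_combination h1
  have hb : b = b' := by linear_combination -h2 + h3
  have hdd : d = d' := by linear_combination h2
  rw [ha, hb, hdd]

lemma q13 (H : Sys R c C E) (hc : ∀ u v : R, c * u = c * v → u = v)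
    (hd : ∀ u v : R, (c - 1) * u = (c - 1) * v → u = v) (p q : R × R × R × R)
    (h : ∀ i, i ≠ 1 → i ≠ 3 → cube c C E i p = cube c C E i q) :
    p = q := by
  have h1 := h 0 (by decide) (by decide)
  have h2 := h 2 (by decide) (by decide)
  have h3 := h 4 (by decide) (by decide)
  have h4 := h 5 (by decide) (by decide)
  obtain ⟨j, a, b, d⟩ := p
  obtain ⟨j', a', b', d'⟩ := q
  simp only [cube, coord] at h1 h2 h3 h4
  have hj : j = j' := H.iEc (show E j - c * j = E j' - c * j' from by linear_combination -h1 + (-c + 1) * h2 + (c) * h3 + h4)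
  subst hj
  have ha : a = a' := by linear_combination h1
  have hb : b = b' := by linear_combination h2
  have hdd : d = d' := by linear_combination -h2 + h3
  rw [ha, hb, hdd]

lemma q14 (H : Sys R c C E) (hc : ∀ u v : R, c * u = c * v → u = v)
    (hd : ∀ u v : R, (c - 1) * u = (c - 1) * v → u = v) (p q : R × R × R × R)
    (h : ∀ i, i ≠ 1 → i ≠ 4 → cube c C E i p = cube c C E i q) :
    p = q := by
  have h1 := h 0 (by decide) (by decide)
  have h2 := h 2 (by decide) (by decide)
  have h3 := h 3 (by decide) (by decide)
  have h4 := h 5 (by decide) (by decide)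
  obtain ⟨j, a, b, d⟩ := p
  obtain ⟨j', a', b', d'⟩ := q
  simp only [cube, coord] at h1 h2 h3 h4
  have hj : j = j' := H.iE (show E j = E j' from by linear_combination -h1 + h2 + (c) * h3 + h4)
  subst hj
  have ha : a = a' := by linear_combination h1
  have hb : b = b' := by linear_combination h2
  have hdd : d = d' := by linear_combination h3
  rw [ha, hb, hdd]

lemma q15 (H : Sys R c C E) (hc : ∀ u v : R, c * u = c * v → u = v)
    (hd : ∀ u v : R, (c - 1) * u = (c - 1) * v → u = v) (p q : R × R × R × R)
    (h : ∀ i, i ≠ 1 → i ≠ 5 → cube c C E i p = cube c C E i q) :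
    p = q := by
  have h1 := h 0 (by decide) (by decide)
  have h2 := h 2 (by decide) (by decide)
  have h3 := h 3 (by decide) (by decide)
  have h4 := h 4 (by decide) (by decide)
  obtain ⟨j, a, b, d⟩ := p
  obtain ⟨j', a', b', d'⟩ := q
  simp only [cube, coord] at h1 h2 h3 h4
  have hj : j = j' := by linear_combination h2 + h3 - h4
  subst hj
  have ha : a = a' := by linear_combination h1
  have hb : b = b' := by linear_combination h2
  have hdd : d = d' := by linear_combination h3
  rw [ha, hb, hdd]

lemma q23 (H : Sys R c C E) (hc : ∀ u v : R, c * u = c * v → u = v)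
    (hd : ∀ u v : R, (c - 1) * u = (c - 1) * v → u = v) (p q : R × R × R × R)
    (h : ∀ i, i ≠ 2 → i ≠ 3 → cube c C E i p = cube c C E i q) :
    p = q := by
  have h1 := h 0 (by decide) (by decide)
  have h2 := h 1 (by decide) (by decide)
  have h3 := h 4 (by decide) (by decide)
  have h4 := h 5 (by decide) (by decide)
  obtain ⟨j, a, b, d⟩ := p
  obtain ⟨j', a', b', d'⟩ := q
  simp only [cube, coord] at h1 h2 h3 h4
  have hj : j = j' := H.iD (show C j - E j = C j' - E j' from by linear_combination h1 - h2)
  subst hj
  have ha : a = a' := by linear_combination h1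
  have hb : b = b' := hd _ _ (by linear_combination -h1 + (c) * h3 + h4)
  have hdd : d = d' := hd _ _ (by linear_combination h1 - h3 - h4)
  rw [ha, hb, hdd]

lemma q24 (H : Sys R c C E) (hc : ∀ u v : R, c * u = c * v → u = v)
    (hd : ∀ u v : R, (c - 1) * u = (c - 1) * v → u = v) (p q : R × R × R × R)
    (h : ∀ i, i ≠ 2 → i ≠ 4 → cube c C E i p = cube c C E i q) :
    p = q := by
  have h1 := h 0 (by decide) (by decide)
  have h2 := h 1 (by decide) (by decide)
  have h3 := h 3 (by decide) (by decide)
  have h4 := h 5 (by decide) (by decide)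
  obtain ⟨j, a, b, d⟩ := p
  obtain ⟨j', a', b', d'⟩ := q
  simp only [cube, coord] at h1 h2 h3 h4
  have hj : j = j' := H.iD (show C j - E j = C j' - E j' from by linear_combination h1 - h2)
  subst hj
  have ha : a = a' := by linear_combination h1
  have hb : b = b' := by linear_combination h1 + (-c) * h3 - h4
  have hdd : d = d' := by linear_combination h3
  rw [ha, hb, hdd]

lemma q25 (H : Sys R c C E) (hc : ∀ u v : R, c * u = c * v → u = v)
    (hd : ∀ u v : R, (c - 1) * u = (c - 1) * v → u = v) (p q : R × R × R × R)
    (h : ∀ i, i ≠ 2 → i ≠ 5 → cube c C E i p = cube c C E i q) :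
    p = q := by
  have h1 := h 0 (by decide) (by decide)
  have h2 := h 1 (by decide) (by decide)
  have h3 := h 3 (by decide) (by decide)
  have h4 := h 4 (by decide) (by decide)
  obtain ⟨j, a, b, d⟩ := p
  obtain ⟨j', a', b', d'⟩ := q
  simp only [cube, coord] at h1 h2 h3 h4
  have hj : j = j' := H.iD (show C j - E j = C j' - E j' from by linear_combination h1 - h2)
  subst hj
  have ha : a = a' := by linear_combination h1
  have hb : b = b' := by linear_combination -h3 + h4
  have hdd : d = d' := by linear_combination h3
  rw [ha, hb, hdd]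

lemma q34 (H : Sys R c C E) (hc : ∀ u v : R, c * u = c * v → u = v)
    (hd : ∀ u v : R, (c - 1) * u = (c - 1) * v → u = v) (p q : R × R × R × R)
    (h : ∀ i, i ≠ 3 → i ≠ 4 → cube c C E i p = cube c C E i q) :
    p = q := by
  have h1 := h 0 (by decide) (by decide)
  have h2 := h 1 (by decide) (by decide)
  have h3 := h 2 (by decide) (by decide)
  have h4 := h 5 (by decide) (by decide)
  obtain ⟨j, a, b, d⟩ := p
  obtain ⟨j', a', b', d'⟩ := q
  simp only [cube, coord] at h1 h2 h3 h4
  have hj : j = j' := H.iD (show C j - E j = C j' - E j' from by linear_combination h1 - h2)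
  subst hj
  have ha : a = a' := by linear_combination h1
  have hb : b = b' := by linear_combination h3
  have hdd : d = d' := hc _ _ (by linear_combination h1 - h3 - h4)
  rw [ha, hb, hdd]

lemma q35 (H : Sys R c C E) (hc : ∀ u v : R, c * u = c * v → u = v)
    (hd : ∀ u v : R, (c - 1) * u = (c - 1) * v → u = v) (p q : R × R × R × R)
    (h : ∀ i, i ≠ 3 → i ≠ 5 → cube c C E i p = cube c C E i q) :
    p = q := by
  have h1 := h 0 (by decide) (by decide)
  have h2 := h 1 (by decide) (by decide)
  have h3 := h 2 (by decide) (by decide)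
  have h4 := h 4 (by decide) (by decide)
  obtain ⟨j, a, b, d⟩ := p
  obtain ⟨j', a', b', d'⟩ := q
  simp only [cube, coord] at h1 h2 h3 h4
  have hj : j = j' := H.iD (show C j - E j = C j' - E j' from by linear_combination h1 - h2)
  subst hj
  have ha : a = a' := by linear_combination h1
  have hb : b = b' := by linear_combination h3
  have hdd : d = d' := by linear_combination -h3 + h4
  rw [ha, hb, hdd]

lemma q45 (H : Sys R c C E) (hc : ∀ u v : R, c * u = c * v → u = v)
    (hd : ∀ u v : R, (c - 1) * u = (c - 1) * v → u = v) (p q : R × R × R × R)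
    (h : ∀ i, i ≠ 4 → i ≠ 5 → cube c C E i p = cube c C E i q) :
    p = q := by
  have h1 := h 0 (by decide) (by decide)
  have h2 := h 1 (by decide) (by decide)
  have h3 := h 2 (by decide) (by decide)
  have h4 := h 3 (by decide) (by decide)
  obtain ⟨j, a, b, d⟩ := p
  obtain ⟨j', a', b', d'⟩ := q
  simp only [cube, coord] at h1 h2 h3 h4
  have hj : j = j' := H.iD (show C j - E j = C j' - E j' from by linear_combination h1 - h2)
  subst hj
  have ha : a = a' := by linear_combination h1
  have hb : b = b' := by linear_combination h3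
  have hdd : d = d' := by linear_combination h4
  rw [ha, hb, hdd]

lemma m00 (H : Sys R c C E) (hc : ∀ u v : R, c * u = c * v → u = v)
    (hd : ∀ u v : R, (c - 1) * u = (c - 1) * v → u = v) (p q : R × R × R × R)
    (h : ∀ u, u ≠ 0 → coord c u p = coord c u q) (h4 : cube c C E 0 p = cube c C E 0 q) :
    p = q := by
  have h1 := h 1 (by decide)
  have h2 := h 2 (by decide)
  have h3 := h 3 (by decide)
  obtain ⟨j, a, b, d⟩ := p
  obtain ⟨j', a', b', d'⟩ := q
  simp only [cube, coord] at h1 h2 h3 h4
  have hj : j = j' := H.iE1 (show E j - j = E j' - j' from by linear_combination h1 + h3 - h4)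
  subst hj
  have ha : a = a' := by linear_combination h1 + h3
  have hb : b = b' := by linear_combination h1
  have hdd : d = d' := hc _ _ (by linear_combination h1 - h2 + h3)
  rw [ha, hb, hdd]

lemma m01 (H : Sys R c C E) (hc : ∀ u v : R, c * u = c * v → u = v)
    (hd : ∀ u v : R, (c - 1) * u = (c - 1) * v → u = v) (p q : R × R × R × R)
    (h : ∀ u, u ≠ 0 → coord c u p = coord c u q) (h4 : cube c C E 1 p = cube c C E 1 q) :
    p = q := by
  have h1 := h 1 (by decide)
  have h2 := h 2 (by decide)
  have h3 := h 3 (by decide)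
  obtain ⟨j, a, b, d⟩ := p
  obtain ⟨j', a', b', d'⟩ := q
  simp only [cube, coord] at h1 h2 h3 h4
  have hj : j = j' := H.iC1 (show C j - j = C j' - j' from by linear_combination h1 + h3 - h4)
  subst hj
  have ha : a = a' := by linear_combination h1 + h3
  have hb : b = b' := by linear_combination h1
  have hdd : d = d' := hc _ _ (by linear_combination h1 - h2 + h3)
  rw [ha, hb, hdd]

lemma m02 (H : Sys R c C E) (hc : ∀ u v : R, c * u = c * v → u = v)
    (hd : ∀ u v : R, (c - 1) * u = (c - 1) * v → u = v) (p q : R × R × R × R)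
    (h : ∀ u, u ≠ 0 → coord c u p = coord c u q) (h4 : cube c C E 2 p = cube c C E 2 q) :
    p = q := by
  have h1 := h 1 (by decide)
  have h2 := h 2 (by decide)
  have h3 := h 3 (by decide)
  obtain ⟨j, a, b, d⟩ := p
  obtain ⟨j', a', b', d'⟩ := q
  simp only [cube, coord] at h1 h2 h3 h4
  have hj : j = j' := by linear_combination -h1 + h4
  subst hj
  have ha : a = a' := by linear_combination h1 + h3
  have hb : b = b' := by linear_combination h1
  have hdd : d = d' := hc _ _ (by linear_combination h1 - h2 + h3)
  rw [ha, hb, hdd]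

lemma m03 (H : Sys R c C E) (hc : ∀ u v : R, c * u = c * v → u = v)
    (hd : ∀ u v : R, (c - 1) * u = (c - 1) * v → u = v) (p q : R × R × R × R)
    (h : ∀ u, u ≠ 0 → coord c u p = coord c u q) (h4 : cube c C E 3 p = cube c C E 3 q) :
    p = q := by
  have h1 := h 1 (by decide)
  have h2 := h 2 (by decide)
  have h3 := h 3 (by decide)
  obtain ⟨j, a, b, d⟩ := p
  obtain ⟨j', a', b', d'⟩ := q
  simp only [cube, coord] at h1 h2 h3 h4
  have hj : j = j' := by linear_combination -h1 + h2 - h3 + (c) * h4
  subst hj
  have ha : a = a' := by linear_combination h2 + (c) * h4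
  have hb : b = b' := by linear_combination h1
  have hdd : d = d' := by linear_combination h4
  rw [ha, hb, hdd]

lemma m04 (H : Sys R c C E) (hc : ∀ u v : R, c * u = c * v → u = v)
    (hd : ∀ u v : R, (c - 1) * u = (c - 1) * v → u = v) (p q : R × R × R × R)
    (h : ∀ u, u ≠ 0 → coord c u p = coord c u q) (h4 : cube c C E 4 p = cube c C E 4 q) :
    p = q := by
  have h1 := h 1 (by decide)
  have h2 := h 2 (by decide)
  have h3 := h 3 (by decide)
  obtain ⟨j, a, b, d⟩ := p
  obtain ⟨j', a', b', d'⟩ := q
  simp only [cube, coord] at h1 h2 h3 h4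
  have hj : j = j' := by linear_combination (-c - 1) * h1 + h2 - h3 + (c) * h4
  subst hj
  have ha : a = a' := by linear_combination (-c) * h1 + h2 + (c) * h4
  have hb : b = b' := by linear_combination h1
  have hdd : d = d' := by linear_combination -h1 + h4
  rw [ha, hb, hdd]

lemma m05 (H : Sys R c C E) (hc : ∀ u v : R, c * u = c * v → u = v)
    (hd : ∀ u v : R, (c - 1) * u = (c - 1) * v → u = v) (p q : R × R × R × R)
    (h : ∀ u, u ≠ 0 → coord c u p = coord c u q) (h4 : cube c C E 5 p = cube c C E 5 q) :
    p = q := by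
  have h1 := h 1 (by decide)
  have h2 := h 2 (by decide)
  have h3 := h 3 (by decide)
  obtain ⟨j, a, b, d⟩ := p
  obtain ⟨j', a', b', d'⟩ := q
  simp only [cube, coord] at h1 h2 h3 h4
  have hj : j = j' := by linear_combination -h1 + h2 - h4
  subst hj
  have ha : a = a' := by linear_combination h1 + h3
  have hb : b = b' := by linear_combination h1
  have hdd : d = d' := hc _ _ (by linear_combination h1 - h2 + h3)
  rw [ha, hb, hdd]

lemma m10 (H : Sys R c C E) (hc : ∀ u v : R, c * u = c * v → u = v)
    (hd : ∀ u v : R, (c - 1) * u = (c - 1) * v → u = v) (p q : R × R × R × R)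
    (h : ∀ u, u ≠ 1 → coord c u p = coord c u q) (h4 : cube c C E 0 p = cube c C E 0 q) :
    p = q := by
  have h1 := h 0 (by decide)
  have h2 := h 2 (by decide)
  have h3 := h 3 (by decide)
  obtain ⟨j, a, b, d⟩ := p
  obtain ⟨j', a', b', d'⟩ := q
  simp only [cube, coord] at h1 h2 h3 h4
  have hj : j = j' := H.iEc (show E j - c * j = E j' - c * j' from by linear_combination (c) * h1 + h2 - h4)
  subst hj
  have ha : a = a' := by linear_combination (c) * h1 + h2
  have hb : b = b' := by linear_combination (c) * h1 + h2 - h3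
  have hdd : d = d' := by linear_combination h1
  rw [ha, hb, hdd]

lemma m11 (H : Sys R c C E) (hc : ∀ u v : R, c * u = c * v → u = v)
    (hd : ∀ u v : R, (c - 1) * u = (c - 1) * v → u = v) (p q : R × R × R × R)
    (h : ∀ u, u ≠ 1 → coord c u p = coord c u q) (h4 : cube c C E 1 p = cube c C E 1 q) :
    p = q := by
  have h1 := h 0 (by decide)
  have h2 := h 2 (by decide)
  have h3 := h 3 (by decide)
  obtain ⟨j, a, b, d⟩ := p
  obtain ⟨j', a', b', d'⟩ := q
  simp only [cube, coord] at h1 h2 h3 h4
  have hj : j = j' := H.iCc (show C j - c * j = C j' - c * j' from by linear_combination (c) * h1 + h2 - h4)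
  subst hj
  have ha : a = a' := by linear_combination (c) * h1 + h2
  have hb : b = b' := by linear_combination (c) * h1 + h2 - h3
  have hdd : d = d' := by linear_combination h1
  rw [ha, hb, hdd]

lemma m12 (H : Sys R c C E) (hc : ∀ u v : R, c * u = c * v → u = v)
    (hd : ∀ u v : R, (c - 1) * u = (c - 1) * v → u = v) (p q : R × R × R × R)
    (h : ∀ u, u ≠ 1 → coord c u p = coord c u q) (h4 : cube c C E 2 p = cube c C E 2 q) :
    p = q := by
  have h1 := h 0 (by decide)
  have h2 := h 2 (by decide)
  have h3 := h 3 (by decide)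
  obtain ⟨j, a, b, d⟩ := p
  obtain ⟨j', a', b', d'⟩ := q
  simp only [cube, coord] at h1 h2 h3 h4
  have hj : j = j' := hc _ _ (by linear_combination (-c) * h1 - h2 + h3 + h4)
  subst hj
  have ha : a = a' := by linear_combination (c) * h1 + h2
  have hb : b = b' := by linear_combination (c) * h1 + h2 - h3
  have hdd : d = d' := by linear_combination h1
  rw [ha, hb, hdd]

lemma m13 (H : Sys R c C E) (hc : ∀ u v : R, c * u = c * v → u = v)
    (hd : ∀ u v : R, (c - 1) * u = (c - 1) * v → u = v) (p q : R × R × R × R)
    (h : ∀ u, u ≠ 1 → coord c u p = coord c u q) (h4 : cube c C E 3 p = cube c C E 3 q) :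
    p = q := by
  have h1 := h 0 (by decide)
  have h2 := h 2 (by decide)
  have h3 := h 3 (by decide)
  obtain ⟨j, a, b, d⟩ := p
  obtain ⟨j', a', b', d'⟩ := q
  simp only [cube, coord] at h1 h2 h3 h4
  have hj : j = j' := by linear_combination -h1 + h4
  subst hj
  have ha : a = a' := by linear_combination (c) * h1 + h2
  have hb : b = b' := by linear_combination (c) * h1 + h2 - h3
  have hdd : d = d' := by linear_combination h1
  rw [ha, hb, hdd]

lemma m14 (H : Sys R c C E) (hc : ∀ u v : R, c * u = c * v → u = v)
    (hd : ∀ u v : R, (c - 1) * u = (c - 1) * v → u = v) (p q : R × R × R × R)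
    (h : ∀ u, u ≠ 1 → coord c u p = coord c u q) (h4 : cube c C E 4 p = cube c C E 4 q) :
    p = q := by
  have h1 := h 0 (by decide)
  have h2 := h 2 (by decide)
  have h3 := h 3 (by decide)
  obtain ⟨j, a, b, d⟩ := p
  obtain ⟨j', a', b', d'⟩ := q
  simp only [cube, coord] at h1 h2 h3 h4
  have hj : j = j' := hc _ _ (by linear_combination (-c - 1) * h1 - h2 + h3 + h4)
  subst hj
  have ha : a = a' := by linear_combination (c) * h1 + h2
  have hb : b = b' := by linear_combination (c) * h1 + h2 - h3
  have hdd : d = d' := by linear_combination h1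
  rw [ha, hb, hdd]

lemma m15 (H : Sys R c C E) (hc : ∀ u v : R, c * u = c * v → u = v)
    (hd : ∀ u v : R, (c - 1) * u = (c - 1) * v → u = v) (p q : R × R × R × R)
    (h : ∀ u, u ≠ 1 → coord c u p = coord c u q) (h4 : cube c C E 5 p = cube c C E 5 q) :
    p = q := by
  have h1 := h 0 (by decide)
  have h2 := h 2 (by decide)
  have h3 := h 3 (by decide)
  obtain ⟨j, a, b, d⟩ := p
  obtain ⟨j', a', b', d'⟩ := q
  simp only [cube, coord] at h1 h2 h3 h4
  have hj : j = j' := hc _ _ (by linear_combination (-c) * h1 + h3 - h4)
  subst hj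
  have ha : a = a' := by linear_combination (c) * h1 + h2
  have hb : b = b' := by linear_combination (c) * h1 + h2 - h3
  have hdd : d = d' := by linear_combination h1
  rw [ha, hb, hdd]

lemma m20 (H : Sys R c C E) (hc : ∀ u v : R, c * u = c * v → u = v)
    (hd : ∀ u v : R, (c - 1) * u = (c - 1) * v → u = v) (p q : R × R × R × R)
    (h : ∀ u, u ≠ 2 → coord c u p = coord c u q) (h4 : cube c C E 0 p = cube c C E 0 q) :
    p = q := by
  have h1 := h 0 (by decide)
  have h2 := h 1 (by decide)
  have h3 := h 3 (by decide)
  obtain ⟨j, a, b, d⟩ := p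
  obtain ⟨j', a', b', d'⟩ := q
  simp only [cube, coord] at h1 h2 h3 h4
  have hj : j = j' := H.iE1 (show E j - j = E j' - j' from by linear_combination h2 + h3 - h4)
  subst hj
  have ha : a = a' := by linear_combination h2 + h3
  have hb : b = b' := by linear_combination h2
  have hdd : d = d' := by linear_combination h1
  rw [ha, hb, hdd]

lemma m21 (H : Sys R c C E) (hc : ∀ u v : R, c * u = c * v → u = v)
    (hd : ∀ u v : R, (c - 1) * u = (c - 1) * v → u = v) (p q : R × R × R × R)
    (h : ∀ u, u ≠ 2 → coord c u p = coord c u q) (h4 : cube c C E 1 p = cube c C E 1 q) :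
    p = q := by
  have h1 := h 0 (by decide)
  have h2 := h 1 (by decide)
  have h3 := h 3 (by decide)
  obtain ⟨j, a, b, d⟩ := p
  obtain ⟨j', a', b', d'⟩ := q
  simp only [cube, coord] at h1 h2 h3 h4
  have hj : j = j' := H.iC1 (show C j - j = C j' - j' from by linear_combination h2 + h3 - h4)
  subst hj
  have ha : a = a' := by linear_combination h2 + h3
  have hb : b = b' := by linear_combination h2
  have hdd : d = d' := by linear_combination h1
  rw [ha, hb, hdd]

lemma m22 (H : Sys R c C E) (hc : ∀ u v : R, c * u = c * v → u = v)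
    (hd : ∀ u v : R, (c - 1) * u = (c - 1) * v → u = v) (p q : R × R × R × R)
    (h : ∀ u, u ≠ 2 → coord c u p = coord c u q) (h4 : cube c C E 2 p = cube c C E 2 q) :
    p = q := by
  have h1 := h 0 (by decide)
  have h2 := h 1 (by decide)
  have h3 := h 3 (by decide)
  obtain ⟨j, a, b, d⟩ := p
  obtain ⟨j', a', b', d'⟩ := q
  simp only [cube, coord] at h1 h2 h3 h4
  have hj : j = j' := by linear_combination -h2 + h4
  subst hj
  have ha : a = a' := by linear_combination h2 + h3
  have hb : b = b' := by linear_combination h2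
  have hdd : d = d' := by linear_combination h1
  rw [ha, hb, hdd]

lemma m23 (H : Sys R c C E) (hc : ∀ u v : R, c * u = c * v → u = v)
    (hd : ∀ u v : R, (c - 1) * u = (c - 1) * v → u = v) (p q : R × R × R × R)
    (h : ∀ u, u ≠ 2 → coord c u p = coord c u q) (h4 : cube c C E 3 p = cube c C E 3 q) :
    p = q := by
  have h1 := h 0 (by decide)
  have h2 := h 1 (by decide)
  have h3 := h 3 (by decide)
  obtain ⟨j, a, b, d⟩ := p
  obtain ⟨j', a', b', d'⟩ := q
  simp only [cube, coord] at h1 h2 h3 h4
  have hj : j = j' := by linear_combination -h1 + h4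
  subst hj
  have ha : a = a' := by linear_combination h2 + h3
  have hb : b = b' := by linear_combination h2
  have hdd : d = d' := by linear_combination h1
  rw [ha, hb, hdd]

lemma m24 (H : Sys R c C E) (hc : ∀ u v : R, c * u = c * v → u = v)
    (hd : ∀ u v : R, (c - 1) * u = (c - 1) * v → u = v) (p q : R × R × R × R)
    (h : ∀ u, u ≠ 2 → coord c u p = coord c u q) (h4 : cube c C E 4 p = cube c C E 4 q) :
    p = q := by
  have h1 := h 0 (by decide)
  have h2 := h 1 (by decide)
  have h3 := h 3 (by decide)
  obtain ⟨j, a, b, d⟩ := p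
  obtain ⟨j', a', b', d'⟩ := q
  simp only [cube, coord] at h1 h2 h3 h4
  have hj : j = j' := by linear_combination -h1 - h2 + h4
  subst hj
  have ha : a = a' := by linear_combination h2 + h3
  have hb : b = b' := by linear_combination h2
  have hdd : d = d' := by linear_combination h1
  rw [ha, hb, hdd]

lemma m25 (H : Sys R c C E) (hc : ∀ u v : R, c * u = c * v → u = v)
    (hd : ∀ u v : R, (c - 1) * u = (c - 1) * v → u = v) (p q : R × R × R × R)
    (h : ∀ u, u ≠ 2 → coord c u p = coord c u q) (h4 : cube c C E 5 p = cube c C E 5 q) :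
    p = q := by
  have h1 := h 0 (by decide)
  have h2 := h 1 (by decide)
  have h3 := h 3 (by decide)
  obtain ⟨j, a, b, d⟩ := p
  obtain ⟨j', a', b', d'⟩ := q
  simp only [cube, coord] at h1 h2 h3 h4
  have hj : j = j' := hc _ _ (by linear_combination (-c) * h1 + h3 - h4)
  subst hj
  have ha : a = a' := by linear_combination h2 + h3
  have hb : b = b' := by linear_combination h2
  have hdd : d = d' := by linear_combination h1
  rw [ha, hb, hdd]

lemma m30 (H : Sys R c C E) (hc : ∀ u v : R, c * u = c * v → u = v)
    (hd : ∀ u v : R, (c - 1) * u = (c - 1) * v → u = v) (p q : R × R × R × R)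
    (h : ∀ u, u ≠ 3 → coord c u p = coord c u q) (h4 : cube c C E 0 p = cube c C E 0 q) :
    p = q := by
  have h1 := h 0 (by decide)
  have h2 := h 1 (by decide)
  have h3 := h 2 (by decide)
  obtain ⟨j, a, b, d⟩ := p
  obtain ⟨j', a', b', d'⟩ := q
  simp only [cube, coord] at h1 h2 h3 h4
  have hj : j = j' := H.iEc (show E j - c * j = E j' - c * j' from by linear_combination (c) * h1 + h3 - h4)
  subst hj
  have ha : a = a' := by linear_combination (c) * h1 + h3
  have hb : b = b' := by linear_combination h2
  have hdd : d = d' := by linear_combination h1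
  rw [ha, hb, hdd]

lemma m31 (H : Sys R c C E) (hc : ∀ u v : R, c * u = c * v → u = v)
    (hd : ∀ u v : R, (c - 1) * u = (c - 1) * v → u = v) (p q : R × R × R × R)
    (h : ∀ u, u ≠ 3 → coord c u p = coord c u q) (h4 : cube c C E 1 p = cube c C E 1 q) :
    p = q := by
  have h1 := h 0 (by decide)
  have h2 := h 1 (by decide)
  have h3 := h 2 (by decide)
  obtain ⟨j, a, b, d⟩ := p
  obtain ⟨j', a', b', d'⟩ := q
  simp only [cube, coord] at h1 h2 h3 h4
  have hj : j = j' := H.iCc (show C j - c * j = C j' - c * j' from by linear_combination (c) * h1 + h3 - h4)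
  subst hj
  have ha : a = a' := by linear_combination (c) * h1 + h3
  have hb : b = b' := by linear_combination h2
  have hdd : d = d' := by linear_combination h1
  rw [ha, hb, hdd]

lemma m32 (H : Sys R c C E) (hc : ∀ u v : R, c * u = c * v → u = v)
    (hd : ∀ u v : R, (c - 1) * u = (c - 1) * v → u = v) (p q : R × R × R × R)
    (h : ∀ u, u ≠ 3 → coord c u p = coord c u q) (h4 : cube c C E 2 p = cube c C E 2 q) :
    p = q := by
  have h1 := h 0 (by decide)
  have h2 := h 1 (by decide)
  have h3 := h 2 (by decide)
  obtain ⟨j, a, b, d⟩ := p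
  obtain ⟨j', a', b', d'⟩ := q
  simp only [cube, coord] at h1 h2 h3 h4
  have hj : j = j' := by linear_combination -h2 + h4
  subst hj
  have ha : a = a' := by linear_combination (c) * h1 + h3
  have hb : b = b' := by linear_combination h2
  have hdd : d = d' := by linear_combination h1
  rw [ha, hb, hdd]

lemma m33 (H : Sys R c C E) (hc : ∀ u v : R, c * u = c * v → u = v)
    (hd : ∀ u v : R, (c - 1) * u = (c - 1) * v → u = v) (p q : R × R × R × R)
    (h : ∀ u, u ≠ 3 → coord c u p = coord c u q) (h4 : cube c C E 3 p = cube c C E 3 q) :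
    p = q := by
  have h1 := h 0 (by decide)
  have h2 := h 1 (by decide)
  have h3 := h 2 (by decide)
  obtain ⟨j, a, b, d⟩ := p
  obtain ⟨j', a', b', d'⟩ := q
  simp only [cube, coord] at h1 h2 h3 h4
  have hj : j = j' := by linear_combination -h1 + h4
  subst hj
  have ha : a = a' := by linear_combination (c) * h1 + h3
  have hb : b = b' := by linear_combination h2
  have hdd : d = d' := by linear_combination h1
  rw [ha, hb, hdd]

lemma m34 (H : Sys R c C E) (hc : ∀ u v : R, c * u = c * v → u = v)
    (hd : ∀ u v : R, (c - 1) * u = (c - 1) * v → u = v) (p q : R × R × R × R)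
    (h : ∀ u, u ≠ 3 → coord c u p = coord c u q) (h4 : cube c C E 4 p = cube c C E 4 q) :
    p = q := by
  have h1 := h 0 (by decide)
  have h2 := h 1 (by decide)
  have h3 := h 2 (by decide)
  obtain ⟨j, a, b, d⟩ := p
  obtain ⟨j', a', b', d'⟩ := q
  simp only [cube, coord] at h1 h2 h3 h4
  have hj : j = j' := by linear_combination -h1 - h2 + h4
  subst hj
  have ha : a = a' := by linear_combination (c) * h1 + h3
  have hb : b = b' := by linear_combination h2
  have hdd : d = d' := by linear_combination h1
  rw [ha, hb, hdd]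

lemma m35 (H : Sys R c C E) (hc : ∀ u v : R, c * u = c * v → u = v)
    (hd : ∀ u v : R, (c - 1) * u = (c - 1) * v → u = v) (p q : R × R × R × R)
    (h : ∀ u, u ≠ 3 → coord c u p = coord c u q) (h4 : cube c C E 5 p = cube c C E 5 q) :
    p = q := by
  have h1 := h 0 (by decide)
  have h2 := h 1 (by decide)
  have h3 := h 2 (by decide)
  obtain ⟨j, a, b, d⟩ := p
  obtain ⟨j', a', b', d'⟩ := q
  simp only [cube, coord] at h1 h2 h3 h4
  have hj : j = j' := by linear_combination -h2 + h3 - h4
  subst hj
  have ha : a = a' := by linear_combination (c) * h1 + h3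
  have hb : b = b' := by linear_combination h2
  have hdd : d = d' := by linear_combination h1
  rw [ha, hb, hdd]

lemma x0123 (H : Sys R c C E) (hc : ∀ u v : R, c * u = c * v → u = v)
    (hd : ∀ u v : R, (c - 1) * u = (c - 1) * v → u = v) (p q : R × R × R × R)
    (h : ∀ u, coord c u p = coord c u q) :
    p = q := by
  have h1 := h 0
  have h2 := h 1
  have h3 := h 2
  have h4 := h 3
  obtain ⟨j, a, b, d⟩ := p
  obtain ⟨j', a', b', d'⟩ := q
  simp only [cube, coord] at h1 h2 h3 h4
  have hj : j = j' := hd _ _ (by linear_combination (-c) * h1 + h2 - h3 + h4)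
  subst hj
  have ha : a = a' := by linear_combination (c) * h1 + h3
  have hb : b = b' := by linear_combination h2
  have hdd : d = d' := by linear_combination h1
  rw [ha, hb, hdd]

lemma cubes_all (H : Sys R c C E) (hc : ∀ u v : R, c * u = c * v → u = v)
    (hd : ∀ u v : R, (c - 1) * u = (c - 1) * v → u = v) :
    ∀ x y : Fin 6, x < y → ∀ p q : R × R × R × R,
      (∀ i, i ≠ x → i ≠ y → cube c C E i p = cube c C E i q) → p = q := by
  intro x y
  fin_cases x <;> fin_cases y <;> intro hxy <;>
    first
    | exact absurd hxy (by decide)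
    | exact q01 H hc hd
    | exact q02 H hc hd
    | exact q03 H hc hd
    | exact q04 H hc hd
    | exact q05 H hc hd
    | exact q12 H hc hd
    | exact q13 H hc hd
    | exact q14 H hc hd
    | exact q15 H hc hd
    | exact q23 H hc hd
    | exact q24 H hc hd
    | exact q25 H hc hd
    | exact q34 H hc hd
    | exact q35 H hc hd
    | exact q45 H hc hd

lemma mixed (H : Sys R c C E) (hc : ∀ u v : R, c * u = c * v → u = v)
    (hd : ∀ u v : R, (c - 1) * u = (c - 1) * v → u = v) :
    ∀ (s : Fin 4) (i : Fin 6) (p q : R × R × R × R),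
      (∀ u, u ≠ s → coord c u p = coord c u q) → cube c C E i p = cube c C E i q → p = q := by
  intro s i
  fin_cases s
  · fin_cases i
    · exact m00 H hc hd
    · exact m01 H hc hd
    · exact m02 H hc hd
    · exact m03 H hc hd
    · exact m04 H hc hd
    · exact m05 H hc hd
  · fin_cases i
    · exact m10 H hc hd
    · exact m11 H hc hd
    · exact m12 H hc hd
    · exact m13 H hc hd
    · exact m14 H hc hd
    · exact m15 H hc hd
  · fin_cases i
    · exact m20 H hc hd
    · exact m21 H hc hd
    · exact m22 H hc hd
    · exact m23 H hc hd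
    · exact m24 H hc hd
    · exact m25 H hc hd
  · fin_cases i
    · exact m30 H hc hd
    · exact m31 H hc hd
    · exact m32 H hc hd
    · exact m33 H hc hd
    · exact m34 H hc hd
    · exact m35 H hc hd

/-- **Six cubes of dimension four from two functions.** -/
theorem hasVarSet [Fintype R] (H : Sys R c C E)
    (hc : ∀ u v : R, c * u = c * v → u = v)
    (hd : ∀ u v : R, (c - 1) * u = (c - 1) * v → u = v) :
    Pool.Agent.Results.MP_c7a479_co.VarSets.HasVarSet 4 (Fintype.card R) 6 := by
  classical
  have hΦ : Bijective (fun (x : R × R × R × R) (i : Fin 4) => coord c i x) := by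
    rw [Fintype.bijective_iff_injective_and_card]
    constructor
    · intro x y h
      exact x0123 H hc hd x y (fun u => congrFun h u)
    · rw [Fintype.card_prod, Fintype.card_prod, Fintype.card_prod, Fintype.card_fun,
        Fintype.card_fin]
      ring
  let e : R × R × R × R ≃ (Fin 4 → R) := Equiv.ofBijective _ hΦ
  have he : ∀ (v : Fin 4 → R) (i : Fin 4), coord c i (e.symm v) = v i := fun v i =>
    congrFun (e.apply_symm_apply v) i
  have hV : Pool.Agent.Results.MP_c7a479_co.VarSets.IsVarSet
      (fun (i : Fin 6) (v : Fin 4 → R) => cube c C E i (e.symm v)) := by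
    constructor
    · intro i v s
      rw [← Finite.injective_iff_bijective]
      intro t t' h
      have h1 : e.symm (update v s t) = e.symm (update v s t') := by
        refine mixed H hc hd s i _ _ (fun u hu => ?_) h
        rw [he, he, update_of_ne hu, update_of_ne hu]
      have h2 := congrFun (e.symm.injective h1) s
      rwa [update_self, update_self] at h2
    · intro s hs
      rw [← Finite.injective_iff_bijective]
      intro v v' h
      apply e.symm.injective
      have hcard : (univ.image s)ᶜ.card = 2 := by
        rw [card_compl, card_image_of_injective _ hs, card_univ, Fintype.card_fin,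
          Fintype.card_fin]
      obtain ⟨x, y, hxy, hc2⟩ := card_eq_two.1 hcard
      have key : ∀ i, i ≠ x → i ≠ y → cube c C E i (e.symm v) = cube c C E i (e.symm v') := by
        intro i hix hiy
        have hi : i ∉ (univ.image s)ᶜ := by
          rw [hc2]; simp [hix, hiy]
        rw [mem_compl, not_not, mem_image] at hi
        obtain ⟨k, -, rfl⟩ := hi
        exact congrFun h k
      rcases lt_or_gt_of_ne hxy with hlt | hlt
      · exact cubes_all H hc hd x y hlt _ _ key
      · exact cubes_all H hc hd y x hlt _ _ (fun i h1 h2 => key i h2 h1)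
  exact ⟨_, hV.transfer (Fintype.equivFin R)⟩

end

end Pool.Agent.H58.DM.Four
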