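import Pool.Agent.H58.DM.Asm

/-!
# Variational sets of six three-dimensional cubes from systems of eleven permutations

Let `R` be a finite commutative ring with a unit `c` such that `c - 1` is a unit, and let `p`, `q`,
`r`, `g` be functions on `R` such that `p`, `q`, `r` and the eight functions `g + [p] + [q] + [r]`
are bijective. Then there is a variational set of six three-dimensional permutation cubes of order
`|R|`.
-/

set_option autoImplicit false
set_option linter.unusedVariables false
set_option linter.unusedSimpArgs false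
set_option linter.unusedSectionVars false

open Finset Function

namespace Pool.Agent.H58.DM.Six

open Pool.Agent.H58.DM (Tri Tri.perm1 Tri.perm2)

/-- the three functions `p`, `q`, `r` and the eight sums `g + [p] + [q] + [r]` are injective -/
structure Sys (R : Type) [AddCommGroup R] (p q r g : R → R) : Prop where
  ip : Injective p
  iq : Injective q
  ir : Injective r
  g0 : Injective g
  g1 : Injective fun j => g j + p j
  g2 : Injective fun j => g j + q j
  g3 : Injective fun j => g j + r j
  g12 : Injective fun j => g j + p j + q j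
  g13 : Injective fun j => g j + p j + r j
  g23 : Injective fun j => g j + q j + r j
  g123 : Injective fun j => g j + p j + q j + r j

section
variable {R : Type} [CommRing R]

/-- the six cubes as functions of the parameters -/
def cube (p q r g : R → R) : Fin 6 → R × R × R → R
  | 0, x => g x.1 + x.2.1
  | 1, x => g x.1 + p x.1 + x.2.1
  | 2, x => x.2.2
  | 3, x => q x.1 + x.2.2
  | 4, x => x.2.1 + x.2.2
  | 5, x => x.2.1 + x.2.2 - r x.1

/-- the three coordinates as functions of the parameters -/
def coord (c : R) (p q r g : R → R) : Fin 3 → R × R × R → R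
  | 0, x => x.2.1 + c * x.2.2 - c * (g x.1 + r x.1)
  | 1, x => x.2.1 + c * x.2.2 - c * (g x.1 + p x.1 + r x.1)
  | 2, x => x.2.1

variable {p q r g : R → R} {c : R}

lemma r012 (H : Sys R p q r g) (hc : ∀ u v : R, c * u = c * v → u = v)
    (hd : ∀ u v : R, (c - 1) * u = (c - 1) * v → u = v) :
    Tri (cube p q r g 0) (cube p q r g 1) (cube p q r g 2) := by
  rintro ⟨j, a, b⟩ ⟨j', a', b'⟩ h1 h2 h3
  simp only [cube, coord] at h1 h2 h3
  have hj : j = j' := H.ip (show p j = p j' by linear_combination h2 - h1)
  subst hj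
  have ha : a = a' := by linear_combination h1
  have hb : b = b' := by linear_combination h3
  rw [ha, hb]

lemma r013 (H : Sys R p q r g) (hc : ∀ u v : R, c * u = c * v → u = v)
    (hd : ∀ u v : R, (c - 1) * u = (c - 1) * v → u = v) :
    Tri (cube p q r g 0) (cube p q r g 1) (cube p q r g 3) := by
  rintro ⟨j, a, b⟩ ⟨j', a', b'⟩ h1 h2 h3
  simp only [cube, coord] at h1 h2 h3
  have hj : j = j' := H.ip (show p j = p j' by linear_combination h2 - h1)
  subst hj
  have ha : a = a' := by linear_combination h1
  have hb : b = b' := by linear_combination h3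
  rw [ha, hb]

lemma r014 (H : Sys R p q r g) (hc : ∀ u v : R, c * u = c * v → u = v)
    (hd : ∀ u v : R, (c - 1) * u = (c - 1) * v → u = v) :
    Tri (cube p q r g 0) (cube p q r g 1) (cube p q r g 4) := by
  rintro ⟨j, a, b⟩ ⟨j', a', b'⟩ h1 h2 h3
  simp only [cube, coord] at h1 h2 h3
  have hj : j = j' := H.ip (show p j = p j' by linear_combination h2 - h1)
  subst hj
  have ha : a = a' := by linear_combination h1
  have hb : b = b' := by linear_combination h3 - h1
  rw [ha, hb]

lemma r015 (H : Sys R p q r g) (hc : ∀ u v : R, c * u = c * v → u = v)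
    (hd : ∀ u v : R, (c - 1) * u = (c - 1) * v → u = v) :
    Tri (cube p q r g 0) (cube p q r g 1) (cube p q r g 5) := by
  rintro ⟨j, a, b⟩ ⟨j', a', b'⟩ h1 h2 h3
  simp only [cube, coord] at h1 h2 h3
  have hj : j = j' := H.ip (show p j = p j' by linear_combination h2 - h1)
  subst hj
  have ha : a = a' := by linear_combination h1
  have hb : b = b' := by linear_combination h3 - h1
  rw [ha, hb]

lemma r023 (H : Sys R p q r g) (hc : ∀ u v : R, c * u = c * v → u = v)
    (hd : ∀ u v : R, (c - 1) * u = (c - 1) * v → u = v) :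
    Tri (cube p q r g 0) (cube p q r g 2) (cube p q r g 3) := by
  rintro ⟨j, a, b⟩ ⟨j', a', b'⟩ h1 h2 h3
  simp only [cube, coord] at h1 h2 h3
  have hj : j = j' := H.iq (show q j = q j' by linear_combination h3 - h2)
  subst hj
  have ha : a = a' := by linear_combination h1
  have hb : b = b' := by linear_combination h2
  rw [ha, hb]

lemma r123 (H : Sys R p q r g) (hc : ∀ u v : R, c * u = c * v → u = v)
    (hd : ∀ u v : R, (c - 1) * u = (c - 1) * v → u = v) :
    Tri (cube p q r g 1) (cube p q r g 2) (cube p q r g 3) := by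
  rintro ⟨j, a, b⟩ ⟨j', a', b'⟩ h1 h2 h3
  simp only [cube, coord] at h1 h2 h3
  have hj : j = j' := H.iq (show q j = q j' by linear_combination h3 - h2)
  subst hj
  have ha : a = a' := by linear_combination h1
  have hb : b = b' := by linear_combination h2
  rw [ha, hb]

lemma r234 (H : Sys R p q r g) (hc : ∀ u v : R, c * u = c * v → u = v)
    (hd : ∀ u v : R, (c - 1) * u = (c - 1) * v → u = v) :
    Tri (cube p q r g 2) (cube p q r g 3) (cube p q r g 4) := by
  rintro ⟨j, a, b⟩ ⟨j', a', b'⟩ h1 h2 h3
  simp only [cube, coord] at h1 h2 h3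
  have hj : j = j' := H.iq (show q j = q j' by linear_combination h2 - h1)
  subst hj
  have ha : a = a' := by linear_combination h3 - h1
  have hb : b = b' := by linear_combination h1
  rw [ha, hb]

lemma r235 (H : Sys R p q r g) (hc : ∀ u v : R, c * u = c * v → u = v)
    (hd : ∀ u v : R, (c - 1) * u = (c - 1) * v → u = v) :
    Tri (cube p q r g 2) (cube p q r g 3) (cube p q r g 5) := by
  rintro ⟨j, a, b⟩ ⟨j', a', b'⟩ h1 h2 h3
  simp only [cube, coord] at h1 h2 h3
  have hj : j = j' := H.iq (show q j = q j' by linear_combination h2 - h1)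
  subst hj
  have ha : a = a' := by linear_combination h3 - h1
  have hb : b = b' := by linear_combination h1
  rw [ha, hb]

lemma r045 (H : Sys R p q r g) (hc : ∀ u v : R, c * u = c * v → u = v)
    (hd : ∀ u v : R, (c - 1) * u = (c - 1) * v → u = v) :
    Tri (cube p q r g 0) (cube p q r g 4) (cube p q r g 5) := by
  rintro ⟨j, a, b⟩ ⟨j', a', b'⟩ h1 h2 h3
  simp only [cube, coord] at h1 h2 h3
  have hj : j = j' := H.ir (show r j = r j' by linear_combination h2 - h3)
  subst hj
  have ha : a = a' := by linear_combination h1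
  have hb : b = b' := by linear_combination h2 - h1
  rw [ha, hb]

lemma r145 (H : Sys R p q r g) (hc : ∀ u v : R, c * u = c * v → u = v)
    (hd : ∀ u v : R, (c - 1) * u = (c - 1) * v → u = v) :
    Tri (cube p q r g 1) (cube p q r g 4) (cube p q r g 5) := by
  rintro ⟨j, a, b⟩ ⟨j', a', b'⟩ h1 h2 h3
  simp only [cube, coord] at h1 h2 h3
  have hj : j = j' := H.ir (show r j = r j' by linear_combination h2 - h3)
  subst hj
  have ha : a = a' := by linear_combination h1
  have hb : b = b' := by linear_combination h2 - h1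
  rw [ha, hb]

lemma r245 (H : Sys R p q r g) (hc : ∀ u v : R, c * u = c * v → u = v)
    (hd : ∀ u v : R, (c - 1) * u = (c - 1) * v → u = v) :
    Tri (cube p q r g 2) (cube p q r g 4) (cube p q r g 5) := by
  rintro ⟨j, a, b⟩ ⟨j', a', b'⟩ h1 h2 h3
  simp only [cube, coord] at h1 h2 h3
  have hj : j = j' := H.ir (show r j = r j' by linear_combination h2 - h3)
  subst hj
  have ha : a = a' := by linear_combination h2 - h1
  have hb : b = b' := by linear_combination h1
  rw [ha, hb]

lemma r345 (H : Sys R p q r g) (hc : ∀ u v : R, c * u = c * v → u = v)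
    (hd : ∀ u v : R, (c - 1) * u = (c - 1) * v → u = v) :
    Tri (cube p q r g 3) (cube p q r g 4) (cube p q r g 5) := by
  rintro ⟨j, a, b⟩ ⟨j', a', b'⟩ h1 h2 h3
  simp only [cube, coord] at h1 h2 h3
  have hj : j = j' := H.ir (show r j = r j' by linear_combination h2 - h3)
  subst hj
  have ha : a = a' := by linear_combination h2 - h1
  have hb : b = b' := by linear_combination h1
  rw [ha, hb]

lemma r024 (H : Sys R p q r g) (hc : ∀ u v : R, c * u = c * v → u = v)
    (hd : ∀ u v : R, (c - 1) * u = (c - 1) * v → u = v) :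
    Tri (cube p q r g 0) (cube p q r g 2) (cube p q r g 4) := by
  rintro ⟨j, a, b⟩ ⟨j', a', b'⟩ h1 h2 h3
  simp only [cube, coord] at h1 h2 h3
  have hj : j = j' := H.g0 (show g j = g j' by linear_combination h1 + h2 - h3)
  subst hj
  have ha : a = a' := by linear_combination h1
  have hb : b = b' := by linear_combination h2
  rw [ha, hb]

lemma r025 (H : Sys R p q r g) (hc : ∀ u v : R, c * u = c * v → u = v)
    (hd : ∀ u v : R, (c - 1) * u = (c - 1) * v → u = v) :
    Tri (cube p q r g 0) (cube p q r g 2) (cube p q r g 5) := by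
  rintro ⟨j, a, b⟩ ⟨j', a', b'⟩ h1 h2 h3
  simp only [cube, coord] at h1 h2 h3
  have hj : j = j' := H.g3 (show g j + r j = g j' + r j' by linear_combination h1 + h2 - h3)
  subst hj
  have ha : a = a' := by linear_combination h1
  have hb : b = b' := by linear_combination h2
  rw [ha, hb]

lemma r034 (H : Sys R p q r g) (hc : ∀ u v : R, c * u = c * v → u = v)
    (hd : ∀ u v : R, (c - 1) * u = (c - 1) * v → u = v) :
    Tri (cube p q r g 0) (cube p q r g 3) (cube p q r g 4) := by
  rintro ⟨j, a, b⟩ ⟨j', a', b'⟩ h1 h2 h3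
  simp only [cube, coord] at h1 h2 h3
  have hj : j = j' := H.g2 (show g j + q j = g j' + q j' by linear_combination h1 + h2 - h3)
  subst hj
  have ha : a = a' := by linear_combination h1
  have hb : b = b' := by linear_combination h2
  rw [ha, hb]

lemma r035 (H : Sys R p q r g) (hc : ∀ u v : R, c * u = c * v → u = v)
    (hd : ∀ u v : R, (c - 1) * u = (c - 1) * v → u = v) :
    Tri (cube p q r g 0) (cube p q r g 3) (cube p q r g 5) := by
  rintro ⟨j, a, b⟩ ⟨j', a', b'⟩ h1 h2 h3
  simp only [cube, coord] at h1 h2 h3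
  have hj : j = j' := H.g23 (show g j + q j + r j = g j' + q j' + r j' by linear_combination h1 + h2 - h3)
  subst hj
  have ha : a = a' := by linear_combination h1
  have hb : b = b' := by linear_combination h2
  rw [ha, hb]

lemma r124 (H : Sys R p q r g) (hc : ∀ u v : R, c * u = c * v → u = v)
    (hd : ∀ u v : R, (c - 1) * u = (c - 1) * v → u = v) :
    Tri (cube p q r g 1) (cube p q r g 2) (cube p q r g 4) := by
  rintro ⟨j, a, b⟩ ⟨j', a', b'⟩ h1 h2 h3
  simp only [cube, coord] at h1 h2 h3
  have hj : j = j' := H.g1 (show g j + p j = g j' + p j' by linear_combination h1 + h2 - h3)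
  subst hj
  have ha : a = a' := by linear_combination h1
  have hb : b = b' := by linear_combination h2
  rw [ha, hb]

lemma r125 (H : Sys R p q r g) (hc : ∀ u v : R, c * u = c * v → u = v)
    (hd : ∀ u v : R, (c - 1) * u = (c - 1) * v → u = v) :
    Tri (cube p q r g 1) (cube p q r g 2) (cube p q r g 5) := by
  rintro ⟨j, a, b⟩ ⟨j', a', b'⟩ h1 h2 h3
  simp only [cube, coord] at h1 h2 h3
  have hj : j = j' := H.g13 (show g j + p j + r j = g j' + p j' + r j' by linear_combination h1 + h2 - h3)
  subst hj
  have ha : a = a' := by linear_combination h1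
  have hb : b = b' := by linear_combination h2
  rw [ha, hb]

lemma r134 (H : Sys R p q r g) (hc : ∀ u v : R, c * u = c * v → u = v)
    (hd : ∀ u v : R, (c - 1) * u = (c - 1) * v → u = v) :
    Tri (cube p q r g 1) (cube p q r g 3) (cube p q r g 4) := by
  rintro ⟨j, a, b⟩ ⟨j', a', b'⟩ h1 h2 h3
  simp only [cube, coord] at h1 h2 h3
  have hj : j = j' := H.g12 (show g j + p j + q j = g j' + p j' + q j' by linear_combination h1 + h2 - h3)
  subst hj
  have ha : a = a' := by linear_combination h1
  have hb : b = b' := by linear_combination h2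
  rw [ha, hb]

lemma r135 (H : Sys R p q r g) (hc : ∀ u v : R, c * u = c * v → u = v)
    (hd : ∀ u v : R, (c - 1) * u = (c - 1) * v → u = v) :
    Tri (cube p q r g 1) (cube p q r g 3) (cube p q r g 5) := by
  rintro ⟨j, a, b⟩ ⟨j', a', b'⟩ h1 h2 h3
  simp only [cube, coord] at h1 h2 h3
  have hj : j = j' := H.g123 (show g j + p j + q j + r j = g j' + p j' + q j' + r j' by linear_combination h1 + h2 - h3)
  subst hj
  have ha : a = a' := by linear_combination h1
  have hb : b = b' := by linear_combination h2
  rw [ha, hb]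

lemma x01_0 (H : Sys R p q r g) (hc : ∀ u v : R, c * u = c * v → u = v)
    (hd : ∀ u v : R, (c - 1) * u = (c - 1) * v → u = v) :
    Tri (coord c p q r g 0) (coord c p q r g 1) (cube p q r g 0) := by
  rintro ⟨j, a, b⟩ ⟨j', a', b'⟩ h1 h2 h3
  simp only [cube, coord] at h1 h2 h3
  have hj : j = j' := H.ip (show p j = p j' from hc _ _ (by linear_combination h1 - h2))
  subst hj
  have ha : a = a' := by linear_combination h3
  have hb : b = b' := hc _ _ (by linear_combination h1 - h3)
  rw [ha, hb]

lemma x01_1 (H : Sys R p q r g) (hc : ∀ u v : R, c * u = c * v → u = v)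
    (hd : ∀ u v : R, (c - 1) * u = (c - 1) * v → u = v) :
    Tri (coord c p q r g 0) (coord c p q r g 1) (cube p q r g 1) := by
  rintro ⟨j, a, b⟩ ⟨j', a', b'⟩ h1 h2 h3
  simp only [cube, coord] at h1 h2 h3
  have hj : j = j' := H.ip (show p j = p j' from hc _ _ (by linear_combination h1 - h2))
  subst hj
  have ha : a = a' := by linear_combination h3
  have hb : b = b' := hc _ _ (by linear_combination h1 - h3)
  rw [ha, hb]

lemma x01_2 (H : Sys R p q r g) (hc : ∀ u v : R, c * u = c * v → u = v)
    (hd : ∀ u v : R, (c - 1) * u = (c - 1) * v → u = v) :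
    Tri (coord c p q r g 0) (coord c p q r g 1) (cube p q r g 2) := by
  rintro ⟨j, a, b⟩ ⟨j', a', b'⟩ h1 h2 h3
  simp only [cube, coord] at h1 h2 h3
  have hj : j = j' := H.ip (show p j = p j' from hc _ _ (by linear_combination h1 - h2))
  subst hj
  have ha : a = a' := by linear_combination h1 - c * h3
  have hb : b = b' := by linear_combination h3
  rw [ha, hb]

lemma x01_3 (H : Sys R p q r g) (hc : ∀ u v : R, c * u = c * v → u = v)
    (hd : ∀ u v : R, (c - 1) * u = (c - 1) * v → u = v) :
    Tri (coord c p q r g 0) (coord c p q r g 1) (cube p q r g 3) := by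
  rintro ⟨j, a, b⟩ ⟨j', a', b'⟩ h1 h2 h3
  simp only [cube, coord] at h1 h2 h3
  have hj : j = j' := H.ip (show p j = p j' from hc _ _ (by linear_combination h1 - h2))
  subst hj
  have ha : a = a' := by linear_combination h1 - c * h3
  have hb : b = b' := by linear_combination h3
  rw [ha, hb]

lemma x01_4 (H : Sys R p q r g) (hc : ∀ u v : R, c * u = c * v → u = v)
    (hd : ∀ u v : R, (c - 1) * u = (c - 1) * v → u = v) :
    Tri (coord c p q r g 0) (coord c p q r g 1) (cube p q r g 4) := by
  rintro ⟨j, a, b⟩ ⟨j', a', b'⟩ h1 h2 h3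
  simp only [cube, coord] at h1 h2 h3
  have hj : j = j' := H.ip (show p j = p j' from hc _ _ (by linear_combination h1 - h2))
  subst hj
  have hb : b = b' := hd _ _ (by linear_combination h1 - h3)
  have ha : a = a' := by linear_combination h3 - hb
  rw [ha, hb]

lemma x01_5 (H : Sys R p q r g) (hc : ∀ u v : R, c * u = c * v → u = v)
    (hd : ∀ u v : R, (c - 1) * u = (c - 1) * v → u = v) :
    Tri (coord c p q r g 0) (coord c p q r g 1) (cube p q r g 5) := by
  rintro ⟨j, a, b⟩ ⟨j', a', b'⟩ h1 h2 h3
  simp only [cube, coord] at h1 h2 h3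
  have hj : j = j' := H.ip (show p j = p j' from hc _ _ (by linear_combination h1 - h2))
  subst hj
  have hb : b = b' := hd _ _ (by linear_combination h1 - h3)
  have ha : a = a' := by linear_combination h3 - hb
  rw [ha, hb]

lemma x012 (H : Sys R p q r g) (hc : ∀ u v : R, c * u = c * v → u = v)
    (hd : ∀ u v : R, (c - 1) * u = (c - 1) * v → u = v) :
    Tri (coord c p q r g 0) (coord c p q r g 1) (coord c p q r g 2) := by
  rintro ⟨j, a, b⟩ ⟨j', a', b'⟩ h1 h2 h3
  simp only [cube, coord] at h1 h2 h3
  have hj : j = j' := H.ip (show p j = p j' from hc _ _ (by linear_combination h1 - h2))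
  subst hj
  have ha : a = a' := by linear_combination h3
  have hb : b = b' := hc _ _ (by linear_combination h1 - h3)
  rw [ha, hb]

lemma x02_0 (H : Sys R p q r g) (hc : ∀ u v : R, c * u = c * v → u = v)
    (hd : ∀ u v : R, (c - 1) * u = (c - 1) * v → u = v) :
    Tri (coord c p q r g 0) (coord c p q r g 2) (cube p q r g 0) := by
  rintro ⟨j, a, b⟩ ⟨j', a', b'⟩ h1 h2 h3
  simp only [cube, coord] at h1 h2 h3
  have hj : j = j' := H.g0 (show g j = g j' by linear_combination h3 - h2)
  subst hj
  have ha : a = a' := by linear_combination h2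
  have hb : b = b' := hc _ _ (by linear_combination h1 - h2)
  rw [ha, hb]

lemma x02_1 (H : Sys R p q r g) (hc : ∀ u v : R, c * u = c * v → u = v)
    (hd : ∀ u v : R, (c - 1) * u = (c - 1) * v → u = v) :
    Tri (coord c p q r g 0) (coord c p q r g 2) (cube p q r g 1) := by
  rintro ⟨j, a, b⟩ ⟨j', a', b'⟩ h1 h2 h3
  simp only [cube, coord] at h1 h2 h3
  have hj : j = j' := H.g1 (show g j + p j = g j' + p j' by linear_combination h3 - h2)
  subst hj
  have ha : a = a' := by linear_combination h2
  have hb : b = b' := hc _ _ (by linear_combination h1 - h2)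
  rw [ha, hb]

lemma x02_2 (H : Sys R p q r g) (hc : ∀ u v : R, c * u = c * v → u = v)
    (hd : ∀ u v : R, (c - 1) * u = (c - 1) * v → u = v) :
    Tri (coord c p q r g 0) (coord c p q r g 2) (cube p q r g 2) := by
  rintro ⟨j, a, b⟩ ⟨j', a', b'⟩ h1 h2 h3
  simp only [cube, coord] at h1 h2 h3
  have hj : j = j' := H.g3 (show g j + r j = g j' + r j' from hc _ _ (by linear_combination -(h1 - h2 - c * h3)))
  subst hj
  have ha : a = a' := by linear_combination h2
  have hb : b = b' := by linear_combination h3
  rw [ha, hb]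

lemma x02_3 (H : Sys R p q r g) (hc : ∀ u v : R, c * u = c * v → u = v)
    (hd : ∀ u v : R, (c - 1) * u = (c - 1) * v → u = v) :
    Tri (coord c p q r g 0) (coord c p q r g 2) (cube p q r g 3) := by
  rintro ⟨j, a, b⟩ ⟨j', a', b'⟩ h1 h2 h3
  simp only [cube, coord] at h1 h2 h3
  have hj : j = j' := H.g23 (show g j + q j + r j = g j' + q j' + r j' from hc _ _ (by linear_combination -(h1 - h2 - c * h3)))
  subst hj
  have ha : a = a' := by linear_combination h2
  have hb : b = b' := by linear_combination h3
  rw [ha, hb]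

lemma x02_4 (H : Sys R p q r g) (hc : ∀ u v : R, c * u = c * v → u = v)
    (hd : ∀ u v : R, (c - 1) * u = (c - 1) * v → u = v) :
    Tri (coord c p q r g 0) (coord c p q r g 2) (cube p q r g 4) := by
  rintro ⟨j, a, b⟩ ⟨j', a', b'⟩ h1 h2 h3
  simp only [cube, coord] at h1 h2 h3
  have hj : j = j' := H.g3 (show g j + r j = g j' + r j' from hc _ _ (by linear_combination -(h1 - h2 - c * (h3 - h2))))
  subst hj
  have ha : a = a' := by linear_combination h2
  have hb : b = b' := by linear_combination h3 - ha
  rw [ha, hb]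

lemma x02_5 (H : Sys R p q r g) (hc : ∀ u v : R, c * u = c * v → u = v)
    (hd : ∀ u v : R, (c - 1) * u = (c - 1) * v → u = v) :
    Tri (coord c p q r g 0) (coord c p q r g 2) (cube p q r g 5) := by
  rintro ⟨j, a, b⟩ ⟨j', a', b'⟩ h1 h2 h3
  simp only [cube, coord] at h1 h2 h3
  have hj : j = j' := H.g0 (show g j = g j' from hc _ _ (by linear_combination -(h1 - h2 - c * (h3 - h2))))
  subst hj
  have ha : a = a' := by linear_combination h2
  have hb : b = b' := by linear_combination h3 - ha
  rw [ha, hb]

lemma x12_0 (H : Sys R p q r g) (hc : ∀ u v : R, c * u = c * v → u = v)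
    (hd : ∀ u v : R, (c - 1) * u = (c - 1) * v → u = v) :
    Tri (coord c p q r g 1) (coord c p q r g 2) (cube p q r g 0) := by
  rintro ⟨j, a, b⟩ ⟨j', a', b'⟩ h1 h2 h3
  simp only [cube, coord] at h1 h2 h3
  have hj : j = j' := H.g0 (show g j = g j' by linear_combination h3 - h2)
  subst hj
  have ha : a = a' := by linear_combination h2
  have hb : b = b' := hc _ _ (by linear_combination h1 - h2)
  rw [ha, hb]

lemma x12_1 (H : Sys R p q r g) (hc : ∀ u v : R, c * u = c * v → u = v)
    (hd : ∀ u v : R, (c - 1) * u = (c - 1) * v → u = v) :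
    Tri (coord c p q r g 1) (coord c p q r g 2) (cube p q r g 1) := by
  rintro ⟨j, a, b⟩ ⟨j', a', b'⟩ h1 h2 h3
  simp only [cube, coord] at h1 h2 h3
  have hj : j = j' := H.g1 (show g j + p j = g j' + p j' by linear_combination h3 - h2)
  subst hj
  have ha : a = a' := by linear_combination h2
  have hb : b = b' := hc _ _ (by linear_combination h1 - h2)
  rw [ha, hb]

lemma x12_2 (H : Sys R p q r g) (hc : ∀ u v : R, c * u = c * v → u = v)
    (hd : ∀ u v : R, (c - 1) * u = (c - 1) * v → u = v) :
    Tri (coord c p q r g 1) (coord c p q r g 2) (cube p q r g 2) := by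
  rintro ⟨j, a, b⟩ ⟨j', a', b'⟩ h1 h2 h3
  simp only [cube, coord] at h1 h2 h3
  have hj : j = j' := H.g13 (show g j + p j + r j = g j' + p j' + r j' from hc _ _ (by linear_combination -(h1 - h2 - c * h3)))
  subst hj
  have ha : a = a' := by linear_combination h2
  have hb : b = b' := by linear_combination h3
  rw [ha, hb]

lemma x12_3 (H : Sys R p q r g) (hc : ∀ u v : R, c * u = c * v → u = v)
    (hd : ∀ u v : R, (c - 1) * u = (c - 1) * v → u = v) :
    Tri (coord c p q r g 1) (coord c p q r g 2) (cube p q r g 3) := by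
  rintro ⟨j, a, b⟩ ⟨j', a', b'⟩ h1 h2 h3
  simp only [cube, coord] at h1 h2 h3
  have hj : j = j' := H.g123 (show g j + p j + q j + r j = g j' + p j' + q j' + r j' from hc _ _ (by linear_combination -(h1 - h2 - c * h3)))
  subst hj
  have ha : a = a' := by linear_combination h2
  have hb : b = b' := by linear_combination h3
  rw [ha, hb]

lemma x12_4 (H : Sys R p q r g) (hc : ∀ u v : R, c * u = c * v → u = v)
    (hd : ∀ u v : R, (c - 1) * u = (c - 1) * v → u = v) :
    Tri (coord c p q r g 1) (coord c p q r g 2) (cube p q r g 4) := by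
  rintro ⟨j, a, b⟩ ⟨j', a', b'⟩ h1 h2 h3
  simp only [cube, coord] at h1 h2 h3
  have hj : j = j' := H.g13 (show g j + p j + r j = g j' + p j' + r j' from hc _ _ (by linear_combination -(h1 - h2 - c * (h3 - h2))))
  subst hj
  have ha : a = a' := by linear_combination h2
  have hb : b = b' := by linear_combination h3 - ha
  rw [ha, hb]

lemma x12_5 (H : Sys R p q r g) (hc : ∀ u v : R, c * u = c * v → u = v)
    (hd : ∀ u v : R, (c - 1) * u = (c - 1) * v → u = v) :
    Tri (coord c p q r g 1) (coord c p q r g 2) (cube p q r g 5) := by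
  rintro ⟨j, a, b⟩ ⟨j', a', b'⟩ h1 h2 h3
  simp only [cube, coord] at h1 h2 h3
  have hj : j = j' := H.g1 (show g j + p j = g j' + p j' from hc _ _ (by linear_combination -(h1 - h2 - c * (h3 - h2))))
  subst hj
  have ha : a = a' := by linear_combination h2
  have hb : b = b' := by linear_combination h3 - ha
  rw [ha, hb]

end

end Pool.Agent.H58.DM.Six
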