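import Pool.Agent.H58.DM.Core4
import Pool.Agent.H58.DM.Asm

/-!
# Tables for the orders `4 p`
-/

set_option autoImplicit false
set_option maxRecDepth 100000

open Function Finset

namespace Pool.Agent.H58.DM.Four

open Pool.Agent.Results.MP_c7a479_co.VarSets (HasVarSet)
open Pool.Agent.H58.DM (okL perm_of_okL)

/-- the field with four elements, `w ^ 2 = 1 + w` -/
abbrev K4 : Type := QuadraticAlgebra (ZMod 2) 1 1

instance instFintypeK4 : Fintype K4 := Fintype.ofEquiv (ZMod 2 × ZMod 2) (QuadraticAlgebra.equivProd 1 1).symm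

lemma card_K4 : Fintype.card K4 = 4 := by decide +kernel

/-- the number of an element of `K4 × ZMod q` -/
def enc (q : ℕ) (r : K4 × ZMod q) : ℕ := (r.1.re.val + 2 * r.1.im.val) * q + r.2.val

/-- the element with a given number -/
def dec (q : ℕ) (k : ℕ) : K4 × ZMod q :=
  (⟨((k / q % 2 : ℕ) : ZMod 2), ((k / q / 2 % 2 : ℕ) : ZMod 2)⟩, ((k % q : ℕ) : ZMod q))

lemma inj_of_ok {R : Type} {n : ℕ} (e : R → ℕ) (d : ℕ → R) (h1 : ∀ r, e r < n)
    (h2 : ∀ r, d (e r) = r) {f : R → R}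
    (h : okL n ((List.range n).map fun k => e (f (d k))) = true) : Injective f := by
  have hnd := (perm_of_okL h).nodup_iff.1 List.nodup_range
  intro a b hab
  have h3 := List.inj_on_of_nodup_map hnd (List.mem_range.2 (h1 a)) (List.mem_range.2 (h1 b))
    (by simp only [h2, hab])
  rw [← h2 a, h3, h2 b]

lemma enc_lt (q : ℕ) [NeZero q] (r : K4 × ZMod q) : enc q r < 4 * q := by
  have h1 : r.1.re.val < 2 := ZMod.val_lt _
  have h2 : r.1.im.val < 2 := ZMod.val_lt _
  have h3 : r.2.val < q := ZMod.val_lt _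
  have h4 : (r.1.re.val + 2 * r.1.im.val) * q ≤ 3 * q := Nat.mul_le_mul_right q (by omega)
  unfold enc
  omega

lemma dec_enc (q : ℕ) [NeZero q] (r : K4 × ZMod q) : dec q (enc q r) = r := by
  have h1 : r.1.re.val < 2 := ZMod.val_lt _
  have h2 : r.1.im.val < 2 := ZMod.val_lt _
  have h3 : r.2.val < q := ZMod.val_lt _
  have hq : 0 < q := Nat.pos_of_ne_zero (NeZero.ne q)
  have h4 : enc q r / q = r.1.re.val + 2 * r.1.im.val := by
    unfold enc
    rw [Nat.add_comm, Nat.add_mul_div_right _ _ hq, Nat.div_eq_of_lt h3, Nat.zero_add]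
  have h5 : enc q r % q = r.2.val := by
    unfold enc
    rw [Nat.add_comm, Nat.add_mul_mod_self_right, Nat.mod_eq_of_lt h3]
  have h6 : enc q r / q % 2 = r.1.re.val := by rw [h4]; omega
  have h7 : enc q r / q / 2 % 2 = r.1.im.val := by rw [h4]; omega
  unfold dec
  rw [h5, h6, h7]
  refine Prod.ext (QuadraticAlgebra.ext ?_ ?_) ?_
  · exact ZMod.natCast_zmod_val _
  · exact ZMod.natCast_zmod_val _
  · exact ZMod.natCast_zmod_val _

/-- the function given by a table -/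
def tab (q : ℕ) (L : List ℕ) (r : K4 × ZMod q) : K4 × ZMod q := dec q (L.getD (enc q r) 0)

theorem hasVarSet_table (q : ℕ) [NeZero q] (c c' c'' : K4 × ZMod q) (C E : K4 × ZMod q → K4 × ZMod q)
    (hc : c * c' = 1) (hc1 : (c - 1) * c'' = 1)
    (t1 : okL (4 * q) ((List.range (4 * q)).map fun k => enc q (C (dec q k))) = true)
    (t2 : okL (4 * q) ((List.range (4 * q)).map fun k => enc q (C (dec q k) - dec q k)) = true)
    (t3 : okL (4 * q) ((List.range (4 * q)).map fun k => enc q (C (dec q k) - c * dec q k)) = true)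
    (t4 : okL (4 * q) ((List.range (4 * q)).map fun k => enc q (E (dec q k))) = true)
    (t5 : okL (4 * q) ((List.range (4 * q)).map fun k => enc q (E (dec q k) - dec q k)) = true)
    (t6 : okL (4 * q) ((List.range (4 * q)).map fun k => enc q (E (dec q k) - c * dec q k)) = true)
    (t7 : okL (4 * q) ((List.range (4 * q)).map fun k => enc q (C (dec q k) - E (dec q k))) = true) :
    HasVarSet 4 (4 * q) 6 := by
  have h1 := enc_lt q
  have h2 := dec_enc q
  have h := hasVarSet (c := c) (C := C) (E := E)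
    ⟨inj_of_ok _ _ h1 h2 t1, inj_of_ok _ _ h1 h2 t2, inj_of_ok _ _ h1 h2 t3, inj_of_ok _ _ h1 h2 t4,
      inj_of_ok _ _ h1 h2 t5, inj_of_ok _ _ h1 h2 t6, inj_of_ok _ _ h1 h2 t7⟩
    (fun u v h => (IsUnit.of_mul_eq_one c' hc).mul_left_cancel h)
    (fun u v h => (IsUnit.of_mul_eq_one c'' hc1).mul_left_cancel h)
  rwa [Fintype.card_prod, card_K4, ZMod.card] at h

theorem base_20 : HasVarSet 4 20 6 :=
  hasVarSet_table 5 (⟨0, 1⟩, 2) (⟨1, 1⟩, 3) (⟨0, 1⟩, 1)
    (tab 5 [0, 5, 18, 12, 7, 14, 13, 6, 4, 15, 11, 3, 2, 8, 16, 10, 9, 19, 1, 17])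
    (tab 5 [0, 12, 9, 13, 17, 11, 19, 5, 2, 8, 18, 16, 7, 14, 1, 4, 3, 6, 15, 10])
    (by decide +kernel) (by decide +kernel) (by decide +kernel) (by decide +kernel)
    (by decide +kernel) (by decide +kernel) (by decide +kernel) (by decide +kernel)
    (by decide +kernel)

theorem base_28 : HasVarSet 4 28 6 :=
  hasVarSet_table 7 (⟨0, 1⟩, 3) (⟨1, 1⟩, 5) (⟨0, 1⟩, 4)
    (tab 7 [0, 10, 20, 21, 26, 14, 7, 9, 6, 1, 19, 16, 11, 27, 18, 25, 5, 15, 2, 12, 24, 22, 4, 8, 17,
      3, 13, 23])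
    (tab 7 [0, 21, 7, 19, 14, 13, 24, 16, 15, 5, 22, 12, 10, 1, 25, 17, 23, 20, 3, 2, 9, 8, 6, 27, 4,
      11, 18, 26])
    (by decide +kernel) (by decide +kernel) (by decide +kernel) (by decide +kernel)
    (by decide +kernel) (by decide +kernel) (by decide +kernel) (by decide +kernel)
    (by decide +kernel)

theorem base_52 : HasVarSet 4 52 6 :=
  hasVarSet_table 13 (⟨0, 1⟩, 2) (⟨1, 1⟩, 7) (⟨0, 1⟩, 1)
    (tab 13 [0, 45, 49, 18, 5, 38, 17, 35, 40, 28, 6, 16, 2, 7, 31, 10, 13, 24, 30, 48, 46, 43, 15, 3,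
      27, 50, 8, 32, 51, 41, 9, 14, 4, 42, 21, 26, 20, 25, 33, 11, 39, 29, 44, 34, 12, 23, 36,
      22, 19, 47, 37, 1])
    (tab 13 [0, 7, 36, 8, 35, 25, 43, 19, 31, 11, 16, 41, 40, 39, 51, 24, 20, 29, 27, 4, 18, 49, 32, 6,
      46, 1, 13, 44, 42, 23, 5, 12, 33, 21, 28, 34, 3, 17, 48, 26, 50, 10, 15, 9, 47, 22, 38,
      37, 30, 14, 45, 2])
    (by decide +kernel) (by decide +kernel) (by decide +kernel) (by decide +kernel)
    (by decide +kernel) (by decide +kernel) (by decide +kernel) (by decide +kernel)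
    (by decide +kernel)

end Pool.Agent.H58.DM.Four
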