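import Pool.Agent.H58.DM.Asm6

/-!
# Tables for the orders `3 p`
-/

set_option autoImplicit false
set_option maxRecDepth 100000

namespace Pool.Agent.H58.DM.Six

open Pool.Agent.Results.MP_c7a479_co.VarSets (HasVarSet)

theorem base_15 : HasVarSet 3 15 6 :=
  hasVarSet_table (by decide)
    ([0, 9, 10, 13, 7, 3, 11, 14, 1, 4, 12, 8, 2, 5, 6])
    ([3, 11, 14, 1, 4, 12, 8, 2, 5, 6, 0, 9, 10, 13, 7])
    ([12, 8, 2, 5, 6, 0, 9, 10, 13, 7, 3, 11, 14, 1, 4]) (by decide +kernel)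

theorem base_21 : HasVarSet 3 21 6 :=
  hasVarSet_table (by decide)
    ([0, 8, 17, 3, 10, 19, 14, 6, 9, 1, 16, 5, 20, 12, 15, 7, 2, 11, 18, 4, 13])
    ([15, 7, 2, 11, 18, 4, 13, 0, 8, 17, 3, 10, 19, 14, 6, 9, 1, 16, 5, 20, 12])
    ([6, 9, 1, 16, 5, 20, 12, 15, 7, 2, 11, 18, 4, 13, 0, 8, 17, 3, 10, 19, 14]) (by decide +kernel)

theorem base_33 : HasVarSet 3 33 6 :=
  hasVarSet_table (by decide)
    ([0, 29, 11, 23, 19, 26, 12, 17, 24, 20, 31, 6, 15, 25, 30, 32, 5, 28, 1, 3, 8, 18, 27, 2, 13,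
      9, 16, 21, 7, 14, 10, 22, 4])
    ([6, 15, 25, 30, 32, 5, 28, 1, 3, 8, 18, 27, 2, 13, 9, 16, 21, 7, 14, 10, 22, 4, 0, 29, 11,
      23, 19, 26, 12, 17, 24, 20, 31])
    ([27, 2, 13, 9, 16, 21, 7, 14, 10, 22, 4, 0, 29, 11, 23, 19, 26, 12, 17, 24, 20, 31, 6, 15,
      25, 30, 32, 5, 28, 1, 3, 8, 18]) (by decide +kernel)

theorem base_39 : HasVarSet 3 39 6 :=
  hasVarSet_table (by decide)
    ([0, 20, 38, 23, 10, 27, 31, 9, 28, 13, 34, 22, 37, 14, 21, 33, 15, 3, 32, 35, 4, 7, 36, 24,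
      6, 18, 25, 2, 17, 5, 26, 11, 30, 8, 12, 29, 16, 1, 19])
    ([25, 2, 17, 5, 26, 11, 30, 8, 12, 29, 16, 1, 19, 0, 20, 38, 23, 10, 27, 31, 9, 28, 13, 34,
      22, 37, 14, 21, 33, 15, 3, 32, 35, 4, 7, 36, 24, 6, 18])
    ([14, 21, 33, 15, 3, 32, 35, 4, 7, 36, 24, 6, 18, 25, 2, 17, 5, 26, 11, 30, 8, 12, 29, 16, 1,
      19, 0, 20, 38, 23, 10, 27, 31, 9, 28, 13, 34, 22, 37]) (by decide +kernel)

theorem base_51 : HasVarSet 3 51 6 :=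
  hasVarSet_table (by decide)
    ([0, 34, 39, 24, 26, 37, 13, 5, 15, 48, 44, 45, 10, 31, 22, 18, 49, 47, 16, 40, 42, 32, 30, 8,
      23, 1, 50, 28, 43, 21, 19, 9, 11, 35, 4, 2, 33, 29, 20, 41, 6, 7, 3, 36, 46, 38, 14, 25, 27,
      12, 17])
    ([47, 16, 40, 42, 32, 30, 8, 23, 1, 50, 28, 43, 21, 19, 9, 11, 35, 4, 2, 33, 29, 20, 41, 6, 7,
      3, 36, 46, 38, 14, 25, 27, 12, 17, 0, 34, 39, 24, 26, 37, 13, 5, 15, 48, 44, 45, 10, 31, 22,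
      18, 49])
    ([4, 2, 33, 29, 20, 41, 6, 7, 3, 36, 46, 38, 14, 25, 27, 12, 17, 0, 34, 39, 24, 26, 37, 13, 5,
      15, 48, 44, 45, 10, 31, 22, 18, 49, 47, 16, 40, 42, 32, 30, 8, 23, 1, 50, 28, 43, 21, 19, 9,
      11, 35]) (by decide +kernel)

theorem base_57 : HasVarSet 3 57 6 :=
  hasVarSet_table (by decide)
    ([0, 24, 8, 45, 23, 50, 44, 10, 31, 52, 35, 32, 51, 15, 9, 21, 56, 43, 17, 39, 29, 3, 30, 53,
      20, 16, 11, 19, 55, 2, 38, 46, 41, 37, 4, 27, 54, 28, 18, 40, 14, 1, 36, 48, 42, 6, 25, 22,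
      5, 26, 47, 13, 7, 34, 12, 49, 33])
    ([18, 40, 14, 1, 36, 48, 42, 6, 25, 22, 5, 26, 47, 13, 7, 34, 12, 49, 33, 0, 24, 8, 45, 23,
      50, 44, 10, 31, 52, 35, 32, 51, 15, 9, 21, 56, 43, 17, 39, 29, 3, 30, 53, 20, 16, 11, 19,
      55, 2, 38, 46, 41, 37, 4, 27, 54, 28])
    ([39, 29, 3, 30, 53, 20, 16, 11, 19, 55, 2, 38, 46, 41, 37, 4, 27, 54, 28, 18, 40, 14, 1, 36,
      48, 42, 6, 25, 22, 5, 26, 47, 13, 7, 34, 12, 49, 33, 0, 24, 8, 45, 23, 50, 44, 10, 31, 52,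
      35, 32, 51, 15, 9, 21, 56, 43, 17]) (by decide +kernel)

end Pool.Agent.H58.DM.Six
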