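import Pool.Agent.H58.DM.Asm

/-!
# The orders 12 and 24
-/

set_option autoImplicit false
set_option maxRecDepth 100000

open Finset Function
open Pool.Agent.Results.MP_c7a479_co.VarSets (HasVarSet)

namespace Pool.Agent.H58.DM

/-- the group with twelve elements -/
abbrev G12 : Type := (ZMod 2 × ZMod 2) × ZMod 3

def enc12 (g : G12) : ℕ := g.1.1.val + 2 * g.1.2.val + 4 * g.2.val

def dec12 (k : ℕ) : G12 := ((((k % 2 : ℕ) : ZMod 2), ((k / 2 % 2 : ℕ) : ZMod 2)), ((k / 4 % 3 : ℕ) : ZMod 3))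

def x12 (g : G12) : G12 := dec12 ([3, 11, 2, 7, 0, 8, 9, 6, 10, 4, 5, 1].getD (enc12 g) 0)

def y12 (g : G12) : G12 := dec12 ([4, 11, 0, 10, 7, 5, 1, 8, 9, 3, 6, 2].getD (enc12 g) 0)

lemma pair12 : Pair G12 x12 y12 where
  ix := by unfold Injective; decide +kernel
  iy := by unfold Injective; decide +kernel
  ixj := by unfold Injective; decide +kernel
  iyj := by unfold Injective; decide +kernel
  ixy := by unfold Injective; decide +kernel

/-- the group with 24 elements -/
abbrev G24 : Type := (ZMod 2 × ZMod 2 × ZMod 2) × ZMod 3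

def enc24 (g : G24) : ℕ := g.1.1.val + 2 * g.1.2.1.val + 4 * g.1.2.2.val + 8 * g.2.val

def dec24 (k : ℕ) : G24 :=
  ((((k % 2 : ℕ) : ZMod 2), ((k / 2 % 2 : ℕ) : ZMod 2), ((k / 4 % 2 : ℕ) : ZMod 2)),
    ((k / 8 % 3 : ℕ) : ZMod 3))

def x24 (g : G24) : G24 := dec24 ([22, 18, 0, 11, 15, 10, 6, 19, 20, 8, 14, 3, 1, 4, 9, 17, 2, 23, 7,
  12, 5, 16, 21, 13].getD (enc24 g) 0)

def y24 (g : G24) : G24 := dec24 ([22, 6, 16, 12, 21, 3, 11, 19, 20, 2, 5, 10, 9, 14, 23, 13, 0, 17,
  4, 1, 7, 8, 18, 15].getD (enc24 g) 0)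

lemma pair24 : Pair G24 x24 y24 where
  ix := by unfold Injective; decide +kernel
  iy := by unfold Injective; decide +kernel
  ixj := by unfold Injective; decide +kernel
  iyj := by unfold Injective; decide +kernel
  ixy := by unfold Injective; decide +kernel

theorem base_12 : HasVarSet 3 12 5 := by
  have : Fact (Nat.Prime 2) := ⟨Nat.prime_two⟩
  let K := GaloisField 2 2
  have hfin : Fintype K := Fintype.ofFinite _
  have hcard : Fintype.card K = 4 := by
    rw [← Nat.card_eq_fintype_card]; exact GaloisField.card 2 2 (by norm_num)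
  have hd : Module.finrank (ZMod 2) (ZMod 2 × ZMod 2) = Module.finrank (ZMod 2) K := by
    rw [Module.finrank_prod, Module.finrank_self, GaloisField.finrank 2 (by norm_num)]
  let e : (ZMod 2 × ZMod 2) ≃+ K := (LinearEquiv.ofFinrankEq _ _ hd).toAddEquiv
  have h := hasVarSet_field (K := K) (by rw [hcard]; norm_num)
    (pair12.map (AddEquiv.prodCongr e (AddEquiv.refl (ZMod 3))))
  rwa [hcard] at h

theorem base_24 : HasVarSet 3 24 5 := by
  have : Fact (Nat.Prime 2) := ⟨Nat.prime_two⟩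
  let K := GaloisField 2 3
  have hfin : Fintype K := Fintype.ofFinite _
  have hcard : Fintype.card K = 8 := by
    rw [← Nat.card_eq_fintype_card]; exact GaloisField.card 2 3 (by norm_num)
  have hd : Module.finrank (ZMod 2) (ZMod 2 × ZMod 2 × ZMod 2) = Module.finrank (ZMod 2) K := by
    rw [Module.finrank_prod, Module.finrank_prod, Module.finrank_self,
      GaloisField.finrank 2 (by norm_num)]
  let e : (ZMod 2 × ZMod 2 × ZMod 2) ≃+ K := (LinearEquiv.ofFinrankEq _ _ hd).toAddEquiv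
  have h := hasVarSet_field (K := K) (by rw [hcard]; norm_num)
    (pair24.map (AddEquiv.prodCongr e (AddEquiv.refl (ZMod 3))))
  rwa [hcard] at h

end Pool.Agent.H58.DM
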