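import Pool.Agent.H58.DM.Asm6
import Pool.Agent.H58.DM.Even

/-!
# The orders 12 and 24
-/

set_option autoImplicit false
set_option maxRecDepth 100000

open Finset Function
open Pool.Agent.Results.MP_c7a479_co.VarSets (HasVarSet)

namespace Pool.Agent.H58.DM.Six

open Pool.Agent.H58.DM (G12 enc12 dec12 G24 enc24 dec24)

def q12 (g : G12) : G12 := dec12 ([0, 9, 6, 11, 8, 1, 10, 7, 4, 5, 2, 3].getD (enc12 g) 0)

def r12 (g : G12) : G12 := dec12 ([0, 11, 2, 9, 10, 1, 8, 3, 5, 4, 7, 6].getD (enc12 g) 0)

def g12 (g : G12) : G12 := dec12 ([0, 2, 4, 8, 1, 5, 7, 9, 11, 3, 10, 6].getD (enc12 g) 0)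

lemma sys12 : Sys G12 (fun j => j) q12 r12 g12 where
  ip := by unfold Injective; decide +kernel
  iq := by unfold Injective; decide +kernel
  ir := by unfold Injective; decide +kernel
  g0 := by unfold Injective; decide +kernel
  g1 := by unfold Injective; decide +kernel
  g2 := by unfold Injective; decide +kernel
  g3 := by unfold Injective; decide +kernel
  g12 := by unfold Injective; decide +kernel
  g13 := by unfold Injective; decide +kernel
  g23 := by unfold Injective; decide +kernel
  g123 := by unfold Injective; decide +kernel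

def p24 (g : G24) : G24 := dec24 ([18, 20, 8, 14, 16, 22, 10, 12, 0, 19, 23, 4, 2, 17, 21, 6, 15, 9, 5, 3, 13, 11, 7, 1].getD (enc24 g) 0)

def q24 (g : G24) : G24 := dec24 ([15, 9, 5, 3, 13, 11, 7, 1, 18, 20, 8, 14, 16, 22, 10, 12, 0, 19, 23, 4, 2, 17, 21, 6].getD (enc24 g) 0)

def r24 (g : G24) : G24 := dec24 ([0, 19, 23, 4, 2, 17, 21, 6, 15, 9, 5, 3, 13, 11, 7, 1, 18, 20, 8, 14, 16, 22, 10, 12].getD (enc24 g) 0)

lemma sys24 : Sys G24 p24 q24 r24 (fun j => j) where
  ip := by unfold Injective; decide +kernel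
  iq := by unfold Injective; decide +kernel
  ir := by unfold Injective; decide +kernel
  g0 := by unfold Injective; decide +kernel
  g1 := by unfold Injective; decide +kernel
  g2 := by unfold Injective; decide +kernel
  g3 := by unfold Injective; decide +kernel
  g12 := by unfold Injective; decide +kernel
  g13 := by unfold Injective; decide +kernel
  g23 := by unfold Injective; decide +kernel
  g123 := by unfold Injective; decide +kernel

theorem base_12 : HasVarSet 3 12 6 := by
  have : Fact (Nat.Prime 2) := ⟨Nat.prime_two⟩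
  let K := GaloisField 2 2
  have hfin : Fintype K := Fintype.ofFinite _
  have hcard : Fintype.card K = 4 := by
    rw [← Nat.card_eq_fintype_card]; exact GaloisField.card 2 2 (by norm_num)
  have hd : Module.finrank (ZMod 2) (ZMod 2 × ZMod 2) = Module.finrank (ZMod 2) K := by
    rw [Module.finrank_prod, Module.finrank_self, GaloisField.finrank 2 (by norm_num)]
  let e : (ZMod 2 × ZMod 2) ≃+ K := (LinearEquiv.ofFinrankEq _ _ hd).toAddEquiv
  have h := hasVarSet_field (K := K) (by rw [hcard]; norm_num)
    (sys12.map (AddEquiv.prodCongr e (AddEquiv.refl (ZMod 3))))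
  rwa [hcard] at h

theorem base_24 : HasVarSet 3 24 6 := by
  have : Fact (Nat.Prime 2) := ⟨Nat.prime_two⟩
  let K := GaloisField 2 3
  have hfin : Fintype K := Fintype.ofFinite _
  have hcard : Fintype.card K = 8 := by
    rw [← Nat.card_eq_fintype_card]; exact GaloisField.card 2 3 (by norm_num)
  have hd : Module.finrank (ZMod 2) (ZMod 2 × ZMod 2 × ZMod 2) = Module.finrank (ZMod 2) K := by
    rw [Module.finrank_prod, Module.finrank_prod, Module.finrank_self,
      GaloisField.finrank 2 (by norm_num)]
  let e : (ZMod 2 × ZMod 2 × ZMod 2) ≃+ K := (LinearEquiv.ofFinrankEq _ _ hd).toAddEquiv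
  have h := hasVarSet_field (K := K) (by rw [hcard]; norm_num)
    (sys24.map (AddEquiv.prodCongr e (AddEquiv.refl (ZMod 3))))
  rwa [hcard] at h

end Pool.Agent.H58.DM.Six
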